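import Pool.Agent.Q36.KM.Good

/-! # Compactness: good at all stages means good -/

set_option autoImplicit false

namespace Pool.Agent.Q36.KM

open Encodable Pool.Agent.Helper227
open Pool.Agent.H561R3 (strs mem_strs nodup_strs FS mem_FS card_FS sum_FS upTo mem_upTo pr_upTo KK pr_KK
  inL ev pr_inL pr_ev pr_pow pr_sum pr_strs exists_code_set exists_code_fun)
open Pool.Agent.Helper981.KP (una length_una primrec_una)

/-- a stage of the construction: the level, the function and the weights -/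
abbrev Stt := ℕ × List ℕ × List ℕ

/-- `A` codes an admissible function -/
def Valid (B : ℕ → List Bool → Prop) (A : List Bool → Prop) : Prop :=
  (∀ k x, B k x → 2 ^ k ≤ valA A x) ∧ ∀ N, ∑ x ∈ FS N, valA A x ^ 2 ≤ 2 * 2 ^ N

/-- the stage is good with the witness `A` -/
def GoodA (B : ℕ → List Bool → Prop) (m : ℕ) (e : Stt) (A : List Bool → Prop) : Prop :=
  Valid B A ∧ Cov (valA A) m e.1 (ev e.2.1) (fun n => e.2.2.getD n 0) ∧ C4 (valA A) (m + 1) e.1 (ev e.2.1)

/-- the finite check at stage `b` succeeds -/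
def AliveAt (Q : ℕ × List Bool → ℕ → Prop) (m b : ℕ) (e : Stt) : Prop :=
  ∃ L ∈ strs (KK (2 * b + 2)), good Q (m, e.1, e.2.1, e.2.2, L, b)

def Alive (Q : ℕ × List Bool → ℕ → Prop) (m : ℕ) (e : Stt) : Prop := ∀ b, e.1 ≤ b → AliveAt Q m b e

theorem wtot_eq (m T : ℕ) (a : List ℕ) : wtot m T a = ∑ n ∈ Finset.Icc m T, a.getD n 0 := by
  unfold wtot
  rw [sum_range_list, ← Finset.sum_filter]
  refine Finset.sum_congr ?_ fun _ _ => rfl
  ext n
  simp only [Finset.mem_filter, Finset.mem_range, Finset.mem_Icc]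
  omega

theorem wsum_eq {A : List Bool → Prop} {L : List Bool} {b : ℕ}
    (h : ∀ y : List Bool, y.length ≤ 2 * b + 2 → (inL L y ↔ A y)) {m T : ℕ} (hT : T ≤ b) (a : List ℕ)
    (x : List Bool) : wsum m T a L x = ∑ n ∈ Finset.Icc m T, a.getD n 0 * valA A (x.take n) := by
  unfold wsum
  rw [sum_range_list, ← Finset.sum_filter]
  refine Finset.sum_congr ?_ fun n hn => ?_
  · ext n
    simp only [Finset.mem_filter, Finset.mem_range, Finset.mem_Icc]
    omega
  · rw [Finset.mem_Icc] at hn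
    rw [cval_eq h (by rw [List.length_take]; omega)]

theorem map_eq {A : List Bool → Prop} {L : List Bool} {b : ℕ}
    (h : ∀ y : List Bool, y.length ≤ 2 * b + 2 → (inL L y ↔ A y)) {N : ℕ} (hN : N ≤ b)
    (f : List Bool → ℕ → ℕ) :
    ((strs N).map (fun x => f x (cval L x))).sum = ∑ x ∈ FS N, f x (valA A x) := by
  rw [sum_FS]
  congr 1
  refine List.map_congr_left fun x hx => ?_
  rw [cval_eq h (by rw [mem_strs.1 hx]; exact hN)]

variable {Q : ℕ × List Bool → ℕ → Prop} {B : ℕ → List Bool → Prop}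

theorem aliveAt_of_good (hB : ∀ k x, B k x ↔ ∃ n, Q (k, x) n) {m : ℕ} {e : Stt}
    {A : List Bool → Prop} (h : GoodA B m e A) {b : ℕ} (hb : e.1 ≤ b) : AliveAt Q m b e := by
  obtain ⟨L, hL, hLA⟩ := exists_code_set A (2 * b + 2)
  obtain ⟨⟨h1, h2⟩, ⟨h3, h3'⟩, h4⟩ := h
  refine ⟨L, hL, ?_, ?_, ?_, ?_, ?_⟩
  · intro x hx k hk
    simp only at hx hk ⊢
    by_cases hq : Q (k, x) b
    · right
      rw [cval_eq hLA (mem_upTo.1 hx)]
      exact h1 k x ((hB k x).2 ⟨b, hq⟩)
    · left; exact hq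
  · intro N hN
    simp only at hN ⊢
    rw [map_eq hLA (by omega) (fun _ v => v ^ 2)]
    exact h2 N
  · simp only
    rw [wtot_eq]
    exact h3
  · intro x hx
    simp only at hx ⊢
    rw [wtot_eq, wsum_eq hLA hb]
    exact h3' x (mem_FS.2 (mem_strs.1 hx))
  · intro N hN
    simp only at hN ⊢
    by_cases hT : e.1 ≤ N
    · right
      rw [map_eq hLA (by omega) (fun x v => ev e.2.1 (x.take e.1) * v), ← sum_FS]
      exact h4 N hT
    · left; exact hT

theorem alive_of_good (hB : ∀ k x, B k x ↔ ∃ n, Q (k, x) n) {m : ℕ} {e : Stt}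
    {A : List Bool → Prop} (h : GoodA B m e A) : Alive Q m e :=
  fun _ hb => aliveAt_of_good hB h hb

theorem aliveAt_mono (hmono : ∀ a m n, m ≤ n → Q a m → Q a n) {m b b' : ℕ} {e : Stt}
    (hTb : e.1 ≤ b) (hbb : b ≤ b') (h : AliveAt Q m b' e) : AliveAt Q m b e := by
  obtain ⟨L, _, h1, h2, h3, h4, h5⟩ := h
  obtain ⟨L', hL', hLA⟩ := exists_code_set (inL L) (2 * b + 2)
  have hself : ∀ y : List Bool, y.length ≤ 2 * b' + 2 → (inL L y ↔ inL L y) := fun _ _ => Iff.rfl
  simp only at h1 h2 h3 h4 h5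
  refine ⟨L', hL', ?_, ?_, ?_, ?_, ?_⟩
  · intro x hx k hk
    simp only at hx hk ⊢
    have hx' := mem_upTo.1 hx
    rw [cval_eq hLA hx']
    rcases h1 x (mem_upTo.2 (hx'.trans hbb)) k (by omega) with h6 | h6
    · left; exact fun h7 => h6 (hmono _ _ _ hbb h7)
    · right
      rwa [cval_eq hself (hx'.trans hbb)] at h6
  · intro N hN
    simp only at hN ⊢
    rw [map_eq hLA (by omega) (fun _ v => v ^ 2)]
    have := h2 N (by omega)
    rwa [map_eq hself (by omega) (fun _ v => v ^ 2)] at this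
  · exact h3
  · intro x hx
    simp only at hx ⊢
    rw [wsum_eq hLA hTb]
    have := h4 x hx
    rwa [wsum_eq hself (hTb.trans hbb)] at this
  · intro N hN
    simp only at hN ⊢
    by_cases hT : e.1 ≤ N
    · right
      rw [map_eq hLA (by omega) (fun x v => ev e.2.1 (x.take e.1) * v)]
      rcases h5 N (by omega) with h6 | h6
      · exact absurd hT h6
      · rwa [map_eq hself (by omega) (fun x v => ev e.2.1 (x.take e.1) * v)] at h6
    · left; exact hT

theorem good_of_alive (hB : ∀ k x, B k x ↔ ∃ n, Q (k, x) n)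
    (hmono : ∀ a m n, m ≤ n → Q a m → Q a n) {m : ℕ} {e : Stt}
    (h : Alive Q m e) : ∃ A, GoodA B m e A := by
  classical
  obtain ⟨T, w, a⟩ := e
  unfold Alive AliveAt at h
  simp only at h
  choose! Lf hLf1 hLf2 using h
  let U : Ultrafilter ℕ := Filter.hyperfilter ℕ
  let A : List Bool → Prop := fun x => ∀ᶠ b in (U : Filter ℕ), inL (Lf b) x
  have hagree1 : ∀ x, ∀ᶠ b in (U : Filter ℕ), (inL (Lf b) x ↔ A x) := by
    intro x
    by_cases hA : A x
    · exact hA.mono fun b hb => ⟨fun _ => hA, fun _ => hb⟩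
    · have : ∀ᶠ b in (U : Filter ℕ), ¬ inL (Lf b) x := Ultrafilter.eventually_not.2 hA
      exact this.mono fun b hb => ⟨fun h => absurd h hb, fun h => absurd h hA⟩
  have hge : ∀ b0, ∀ᶠ b in (U : Filter ℕ), b0 ≤ b := by
    intro b0
    have h1 : ∀ᶠ b in Filter.cofinite, b0 ≤ b := by
      rw [Nat.cofinite_eq_atTop]
      exact Filter.eventually_ge_atTop b0
    exact h1.filter_mono Filter.hyperfilter_le_cofinite
  have hagree : ∀ b0, ∃ b, b0 ≤ b ∧ T ≤ b ∧ ∀ x : List Bool, x.length ≤ 2 * b0 + 2 → (inL (Lf b) x ↔ A x) := by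
    intro b0
    have h1 : ∀ᶠ b in (U : Filter ℕ), ∀ x ∈ (upTo (2 * b0 + 2)).toFinset, (inL (Lf b) x ↔ A x) := by
      rw [Filter.eventually_all_finset]
      intro x _
      exact hagree1 x
    obtain ⟨b, ⟨h2, h3⟩, h4⟩ := ((h1.and (hge b0)).and (hge T)).exists
    exact ⟨b, h3, h4, fun x hx => h2 x (by rw [List.mem_toFinset]; exact mem_upTo.2 hx)⟩
  refine ⟨A, ⟨?_, ?_⟩, ⟨?_, ?_⟩, ?_⟩
  · intro k x hx
    obtain ⟨n, hn⟩ := (hB k x).1 hx
    obtain ⟨b, h1, h2, h3⟩ := hagree (max (max x.length n) k)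
    have h4 := (hLf2 b h2).1 x (mem_upTo.2 (by simp only; omega)) k (by simp only; omega)
    simp only at h4
    rcases h4 with h4 | h4
    · exact absurd (hmono _ _ _ (by omega) hn) h4
    · rwa [cval_eq h3 (by omega)] at h4
  · intro N
    obtain ⟨b, h1, h2, h3⟩ := hagree N
    have h4 := (hLf2 b h2).2.1 N (by simp only; omega)
    simp only at h4
    rwa [map_eq h3 le_rfl (fun _ v => v ^ 2)] at h4
  · have h4 := (hLf2 T le_rfl).2.2.1
    simp only at h4
    rw [wtot_eq] at h4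
    exact h4
  · intro x hx
    simp only at hx ⊢
    obtain ⟨b, h1, h2, h3⟩ := hagree T
    have h4 := (hLf2 b h2).2.2.2.1 x (mem_strs.2 (mem_FS.1 hx))
    simp only at h4
    rwa [wtot_eq, wsum_eq h3 le_rfl] at h4
  · intro N hN
    simp only at hN ⊢
    obtain ⟨b, h1, h2, h3⟩ := hagree N
    have h4 := (hLf2 b h2).2.2.2.2 N (by simp only; omega)
    simp only at h4
    rcases h4 with h4 | h4
    · exact absurd hN h4
    · rw [map_eq h3 le_rfl (fun x v => ev w (x.take T) * v), ← sum_FS] at h4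
      exact h4

end Pool.Agent.Q36.KM
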