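import Pool.Agent.Q36.KM.Alive

/-! # The canonical chain and its approximations -/

set_option autoImplicit false

namespace Pool.Agent.Q36.KM

open Encodable Pool.Agent.Helper227
open Pool.Agent.H561R3 (strs mem_strs nodup_strs FS mem_FS card_FS sum_FS upTo mem_upTo pr_upTo KK pr_KK
  inL ev pr_inL pr_ev pr_pow pr_sum pr_strs exists_code_set exists_code_fun)
open Pool.Agent.Helper981.KP (una length_una primrec_una)

/-- the static part of one step of the chain -/
def Ext (m : ℕ) (e' e : Stt) : Prop :=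
  e'.1 ≤ e.1 ∧ m ≤ e.1 ∧ ∀ x ∈ strs e.1, 2 * ev e'.2.1 (x.take e'.1) ≤ ev e.2.1 x

/-- `c` is the code of an acceptable next stage, at stage `n` -/
def cand (Q : ℕ × List Bool → ℕ → Prop) (n m : ℕ) (e' : Stt) (c : ℕ) : Prop :=
  ∃ e ∈ (decode (α := Stt) c).toList, Ext m e' e ∧ e.1 ≤ n ∧ AliveAt Q m n e

open Classical in
/-- the least acceptable code below `n` -/
noncomputable def idx (Q : ℕ × List Bool → ℕ → Prop) (n m : ℕ) (e' : Stt) : ℕ :=
  (List.range n).findIdx (fun c => decide (cand Q n m e' c))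

/-- one step at stage `n` -/
noncomputable def stepR (Q : ℕ × List Bool → ℕ → Prop) (n : ℕ) (p : ℕ × Stt) : ℕ × Stt :=
  if idx Q n p.1 p.2 < n then (p.1 + 1, (decode (α := Stt) (idx Q n p.1 p.2)).getD p.2) else p

/-- the chain at stage `n` -/
noncomputable def R (Q : ℕ × List Bool → ℕ → Prop) (n k : ℕ) : ℕ × Stt :=
  (stepR Q n)^[k] (0, (0, [], []))

theorem R_succ (Q : ℕ × List Bool → ℕ → Prop) (n k : ℕ) : R Q n (k + 1) = stepR Q n (R Q n k) := by
  unfold R
  rw [Function.iterate_succ_apply']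

section
variable {Q : ℕ × List Bool → ℕ → Prop} {B : ℕ → List Bool → Prop}

theorem idx_spec {n m : ℕ} {e' : Stt} (h : idx Q n m e' < n) : cand Q n m e' (idx Q n m e') := by
  classical
  unfold idx at h ⊢
  have h1 : List.findIdx (fun c => decide (cand Q n m e' c)) (List.range n) < (List.range n).length := by
    rw [List.length_range]; exact h
  have h2 := List.findIdx_getElem (w := h1)
  rw [List.getElem_range] at h2
  exact of_decide_eq_true h2

theorem idx_eq {n m c : ℕ} {e' : Stt} (hc : c < n) (h1 : cand Q n m e' c)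
    (h2 : ∀ c' < c, ¬ cand Q n m e' c') : idx Q n m e' = c := by
  classical
  unfold idx
  have hl : c < (List.range n).length := by rw [List.length_range]; exact hc
  rw [List.findIdx_eq hl]
  refine ⟨?_, ?_⟩
  · rw [List.getElem_range]
    exact decide_eq_true h1
  · intro j hj
    rw [List.getElem_range]
    exact decide_eq_false (h2 j hj)

/-- the step either extends or stays -/
theorem stepR_cases (n : ℕ) (p : ℕ × Stt) : stepR Q n p = p ∨
    ∃ e : Stt, stepR Q n p = (p.1 + 1, e) ∧ Ext p.1 p.2 e ∧ e.1 ≤ n ∧ AliveAt Q p.1 n e := by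
  unfold stepR
  split_ifs with h
  · right
    obtain ⟨e, he, h1, h2, h3⟩ := idx_spec h
    rw [Option.mem_toList] at he
    refine ⟨e, ?_, h1, h2, h3⟩
    rw [he]
    rfl
  · left; rfl

/-- validity of the chain at stage `n` -/
theorem R_valid (n k : ℕ) : (R Q n k).2.1 ≤ n ∧ ((R Q n k) = (0, (0, [], [])) ∨
    ∃ m', (R Q n k).1 = m' + 1 ∧ AliveAt Q m' n (R Q n k).2) := by
  induction k with
  | zero =>
    refine ⟨Nat.zero_le _, Or.inl rfl⟩
  | succ k ih =>
    rw [R_succ]
    rcases stepR_cases (Q := Q) n (R Q n k) with h | ⟨e, h, _, h2, h3⟩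
    · rw [h]; exact ih
    · rw [h]
      exact ⟨h2, Or.inr ⟨_, rfl, h3⟩⟩

theorem ev_nil (x : List Bool) : ev [] x = 0 := by simp [ev]

/-- the mean square at level `n` -/
theorem R_sq (n k : ℕ) : ∑ x ∈ FS n, ev (R Q n k).2.2.1 (x.take (R Q n k).2.1) ^ 2 ≤
    40 * 4 ^ (R Q n k).1 * 2 ^ n := by
  obtain ⟨h1, h2 | ⟨m', h2, L, _, _, h4, _, _, h5⟩⟩ := R_valid (Q := Q) n k
  · rw [h2]
    simp [ev_nil]
  · simp only at h4 h5
    have h6 := h4 n (by omega)
    rw [← sum_FS] at h6
    have h7 := h5 n (by omega)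
    rcases h7 with h7 | h7
    · exact absurd h1 h7
    · rw [← sum_FS, ← sum_FS] at h7
      have h8 := sq_bound (G := fun x => cval L x) (m := m' + 1) (T := (R Q n k).2.1)
        (w := ev (R Q n k).2.2.1) h6 h7
      rw [h2]
      exact h8

/-- the functions increase along the chain -/
theorem R_mono (n k j : ℕ) : (R Q n k).1 ≤ (R Q n (k + j)).1 ∧ (R Q n k).2.1 ≤ (R Q n (k + j)).2.1 ∧
    ∀ x : List Bool, (R Q n (k + j)).2.1 ≤ x.length →
      2 ^ (R Q n (k + j)).1 * ev (R Q n k).2.2.1 (x.take (R Q n k).2.1) ≤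
        2 ^ (R Q n k).1 * ev (R Q n (k + j)).2.2.1 (x.take (R Q n (k + j)).2.1) := by
  induction j with
  | zero => exact ⟨le_rfl, le_rfl, fun x _ => le_rfl⟩
  | succ j ih =>
    obtain ⟨h1, h2, h3⟩ := ih
    have e1 : k + (j + 1) = (k + j) + 1 := by omega
    rw [e1, R_succ]
    rcases stepR_cases (Q := Q) n (R Q n (k + j)) with h | ⟨e, h, ⟨h4, _, h5⟩, _, _⟩
    · rw [h]; exact ⟨h1, h2, h3⟩
    · rw [h]
      refine ⟨h1.trans (Nat.le_succ _), h2.trans h4, ?_⟩
      intro x hx
      simp only at hx h4 h5 ⊢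
      have h6 := h3 x (h4.trans hx)
      have h7 := h5 (x.take e.1) (mem_strs.2 (by rw [List.length_take]; omega))
      rw [List.take_take, min_eq_left h4] at h7
      calc 2 ^ ((R Q n (k + j)).1 + 1) * ev (R Q n k).2.2.1 (x.take (R Q n k).2.1)
          = 2 * (2 ^ (R Q n (k + j)).1 * ev (R Q n k).2.2.1 (x.take (R Q n k).2.1)) := by
            rw [pow_succ]; ring
        _ ≤ 2 * (2 ^ (R Q n k).1 * ev (R Q n (k + j)).2.2.1 (x.take (R Q n (k + j)).2.1)) :=
            Nat.mul_le_mul_left _ h6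
        _ = 2 ^ (R Q n k).1 * (2 * ev (R Q n (k + j)).2.2.1 (x.take (R Q n (k + j)).2.1)) := by ring
        _ ≤ _ := Nat.mul_le_mul_left _ h7

/-- the invariant -/
def Inv (B : ℕ → List Bool → Prop) (m : ℕ) (e : Stt) : Prop :=
  ∃ A, Valid B A ∧ C4 (valA A) m e.1 (ev e.2.1)

/-- one step of the true chain exists and is found by all late stages -/
theorem true_step (hB : ∀ k x, B k x ↔ ∃ n, Q (k, x) n)
    (hmono : ∀ a m n, m ≤ n → Q a m → Q a n) {m : ℕ} {e' : Stt} (h : Inv B m e') :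
    ∃ e : Stt, Ext m e' e ∧ (∃ A, GoodA B m e A) ∧ ∃ n0, ∀ n, n0 ≤ n → stepR Q n (m, e') = (m + 1, e) := by
  classical
  obtain ⟨A, h1, h2⟩ := h
  obtain ⟨T, a, w, hT1, hT2, hw1, hcov, hc4⟩ := step_exists (valA A) h1.2 m e'.1 (ev e'.2.1) h2
  obtain ⟨wl, hwl⟩ := exists_code_fun w T
  have hlen : ∀ x ∈ FS T, ev wl x = w x := fun x hx => hwl x (by rw [mem_FS.1 hx])
  -- the list of the weights
  set al : List ℕ := (List.range (T + 1)).map a with hal
  have hala : ∀ n, n ≤ T → al.getD n 0 = a n := by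
    intro n hn
    rw [hal, List.getD_eq_getElem _ _ (by simp; omega)]
    simp
  have hsA : ∑ n ∈ Finset.Icc m T, al.getD n 0 = ∑ n ∈ Finset.Icc m T, a n :=
    Finset.sum_congr rfl fun n hn => hala n (Finset.mem_Icc.1 hn).2
  have hgood : GoodA B m (T, wl, al) A := by
    refine ⟨h1, ⟨?_, ?_⟩, ?_⟩
    · simp only
      rw [hsA]; exact hcov.1
    · intro x hx
      simp only at hx ⊢
      rw [hsA, hlen x hx]
      have e1 : ∑ n ∈ Finset.Icc m T, al.getD n 0 * valA A (x.take n) =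
          ∑ n ∈ Finset.Icc m T, a n * valA A (x.take n) :=
        Finset.sum_congr rfl fun n hn => by rw [hala n (Finset.mem_Icc.1 hn).2]
      rw [e1]
      exact hcov.2 x hx
    · intro N hN
      simp only at hN ⊢
      have e1 : ∀ x ∈ FS N, ev wl (x.take T) = w (x.take T) := by
        intro x _
        exact hwl _ (by rw [List.length_take]; omega)
      have e2 : ∑ x ∈ FS N, ev wl (x.take T) ^ 2 = ∑ x ∈ FS N, w (x.take T) ^ 2 :=
        Finset.sum_congr rfl fun x hx => by rw [e1 x hx]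
      have e3 : ∑ x ∈ FS N, ev wl (x.take T) * valA A x = ∑ x ∈ FS N, w (x.take T) * valA A x :=
        Finset.sum_congr rfl fun x hx => by rw [e1 x hx]
      rw [e2, e3]
      exact hc4 N hN
  have hext : Ext m e' (T, wl, al) := by
    refine ⟨hT1, hT2, ?_⟩
    intro x hx
    have hx' : x ∈ FS T := mem_FS.2 (mem_strs.1 hx)
    simp only
    rw [hlen x hx']
    exact hw1 x hx'
  -- the least code
  let P : ℕ → Prop := fun c => ∃ e : Stt, decode (α := Stt) c = some e ∧ Ext m e' e ∧ Alive Q m e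
  have hex : ∃ c, P c := ⟨encode ((T, wl, al) : Stt), (T, wl, al), encodek _, hext, alive_of_good hB hgood⟩
  obtain ⟨e, he1, he2, he3⟩ := Nat.find_spec hex
  refine ⟨e, he2, good_of_alive hB hmono he3, ?_⟩
  set c := Nat.find hex with hc
  -- smaller codes are eventually rejected
  have hrej : ∀ c' < c, ∃ b, ∀ n, b ≤ n → ¬ cand Q n m e' c' := by
    intro c' hc'
    have h3 : ¬ P c' := Nat.find_min hex hc'
    by_cases h4 : ∃ e'', decode (α := Stt) c' = some e'' ∧ Ext m e' e''
    · obtain ⟨e'', h5, h6⟩ := h4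
      have h7 : ¬ Alive Q m e'' := fun h8 => h3 ⟨e'', h5, h6, h8⟩
      unfold Alive at h7
      push Not at h7
      obtain ⟨b, h8, h9⟩ := h7
      refine ⟨b, fun n hn => ?_⟩
      rintro ⟨e₂, h10, _, _, h12⟩
      rw [Option.mem_toList, h5] at h10
      cases h10
      exact h9 (aliveAt_mono hmono h8 hn h12)
    · refine ⟨0, fun n _ => ?_⟩
      rintro ⟨e₂, h10, h11, _, _⟩
      rw [Option.mem_toList] at h10
      exact h4 ⟨e₂, h10, h11⟩
  choose! b hb using hrej
  refine ⟨c + 1 + e.1 + ∑ c' ∈ Finset.range c, b c', fun n hn => ?_⟩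
  have hidx : idx Q n m e' = c := by
    refine idx_eq (by omega) ?_ ?_
    · refine ⟨e, by rw [Option.mem_toList]; exact he1, he2, by omega, he3 n (by omega)⟩
    · intro c' hc'
      refine hb c' hc' n ?_
      have : b c' ≤ ∑ c' ∈ Finset.range c, b c' :=
        Finset.single_le_sum (f := b) (fun _ _ => Nat.zero_le _) (Finset.mem_range.2 hc')
      omega
  unfold stepR
  simp only
  rw [hidx, if_pos (by omega), he1]
  rfl

/-- **The chain**: for every `m` there is a stage reached by all late approximations, with all the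
properties of the construction -/
theorem chain (hB : ∀ k x, B k x ↔ ∃ n, Q (k, x) n)
    (hmono : ∀ a m n, m ≤ n → Q a m → Q a n) (hA0 : ∃ A, Valid B A) (m : ℕ) :
    ∃ e : Stt, (∃ A, GoodA B m e A) ∧ ∃ n0, ∀ n, n0 ≤ n → R Q n (m + 1) = (m + 1, e) := by
  have key : ∀ m : ℕ, ∃ e' : Stt, Inv B m e' ∧ ∃ n0, ∀ n, n0 ≤ n → R Q n m = (m, e') := by
    intro m
    induction m with
    | zero =>
      obtain ⟨A, hA⟩ := hA0
      refine ⟨(0, [], []), ⟨A, hA, ?_⟩, 0, fun n _ => rfl⟩
      intro N _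
      simp [ev_nil]
    | succ m ih =>
      obtain ⟨e', h1, n0, h2⟩ := ih
      obtain ⟨e, _, ⟨A, hA⟩, n1, h4⟩ := true_step hB hmono h1
      refine ⟨e, ⟨A, hA.1, hA.2.2⟩, max n0 n1, fun n hn => ?_⟩
      rw [R_succ, h2 n (le_trans (le_max_left _ _) hn), h4 n (le_trans (le_max_right _ _) hn)]
  obtain ⟨e', h1, n0, h2⟩ := key m
  obtain ⟨e, _, h3, n1, h4⟩ := true_step hB hmono h1
  refine ⟨e, h3, max n0 n1, fun n hn => ?_⟩
  rw [R_succ, h2 n (le_trans (le_max_left _ _) hn), h4 n (le_trans (le_max_right _ _) hn)]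

end

end Pool.Agent.Q36.KM
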