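import Pool.Agent.Q36.KM.Mach
import Pool.Agent.H561R3.Fin

/-! # The deficiency levels of plain complexity -/

set_option autoImplicit false

namespace Pool.Agent.Q36.KM

open Encodable Pool.Agent.Helper227
open Pool.Agent.H561R3 (strs mem_strs nodup_strs FS mem_FS card_FS sum_FS sumA Bd s1_Bd count_Bd)
open Pool.Agent.Helper981.KP (una length_una primrec_una)
open Pool.Agent.TH676.CK (OptPlain cx eP rP eP_una rP_una primrec_eP primrec_rP)

/-- the deficiency of `x` is at least `4 k` -/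
def BB (U : List Bool →. List Bool) (k : ℕ) (x : List Bool) : Prop := k = 0 ∨ Bd U (4 * k - 1) x

theorem s1_BB {U : List Bool →. List Bool} (hU : Partrec U) :
    S1 fun a : ℕ × List Bool => BB U a.1 a.2 := by
  unfold BB
  refine S1.or (S1.of_prim (Primrec.eq.comp Primrec.fst (Primrec.const 0))) ?_
  exact (s1_Bd hU).comp ((Primrec.nat_sub.comp (Primrec.nat_mul.comp (Primrec.const 4) Primrec.fst)
    (Primrec.const 1)).pair Primrec.snd)

theorem Bd_anti {U : List Bool →. List Bool} {d d' : ℕ} (h : d ≤ d') {x : List Bool}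
    (hx : Bd U d' x) : Bd U d x := by
  obtain ⟨q, h1, h2⟩ := hx
  exact ⟨q, h1, by omega⟩

open Classical in
theorem sq_aux (b : ℕ → Prop) (n : ℕ) :
    (1 + ∑ j ∈ Finset.range n, if b j then 2 ^ j else 0) ≤ 2 ^ n ∧
    (1 + ∑ j ∈ Finset.range n, if b j then 2 ^ j else 0) ^ 2 ≤
      1 + 3 * ∑ j ∈ Finset.range n, if b j then 4 ^ j else 0 := by
  induction n with
  | zero => simp
  | succ n ih =>
    obtain ⟨h1, h2⟩ := ih
    rw [Finset.sum_range_succ, Finset.sum_range_succ (fun j => if b j then 4 ^ j else 0)]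
    set s := ∑ j ∈ Finset.range n, if b j then 2 ^ j else 0 with hs
    set t := ∑ j ∈ Finset.range n, if b j then 4 ^ j else 0 with ht
    have h4 : (4 : ℕ) ^ n = 2 ^ n * 2 ^ n := by rw [← mul_pow]; norm_num
    split_ifs with hb
    · refine ⟨by rw [pow_succ]; omega, ?_⟩
      rw [h4]
      have h5 : (1 + s) * 2 ^ n ≤ 2 ^ n * 2 ^ n := Nat.mul_le_mul_right _ h1
      nlinarith
    · refine ⟨by rw [pow_succ]; omega, ?_⟩
      simpa using h2

theorem valid_BB (U : List Bool →. List Bool) : ∃ A, Valid (BB U) A := by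
  classical
  refine ⟨fun y => Bd U (4 * eP y + 3) (rP y), ?_, ?_⟩
  · intro k x hx
    unfold valA
    simp only [eP_una, rP_una]
    rcases hx with rfl | hx
    · simp
    · rcases Nat.eq_zero_or_pos k with rfl | hk
      · simp
      have hkx : k ≤ x.length + 1 := by
        obtain ⟨q, _, h2⟩ := hx
        omega
      have h1 : ∑ j ∈ Finset.range k, 2 ^ j ≤
          ∑ j ∈ Finset.range (x.length + 1), if Bd U (4 * j + 3) x then 2 ^ j else 0 := by
        refine (Finset.sum_le_sum (g := fun j => if Bd U (4 * j + 3) x then 2 ^ j else 0) fun j hj => ?_).trans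
          (Finset.sum_le_sum_of_subset (Finset.range_subset_range.2 hkx))
        rw [Finset.mem_range] at hj
        rw [if_pos (Bd_anti (by omega) hx)]
      have h2 : ∀ k : ℕ, 1 + ∑ j ∈ Finset.range k, 2 ^ j = 2 ^ k := by
        intro k
        induction k with
        | zero => simp
        | succ k ih => rw [Finset.sum_range_succ, ← add_assoc, ih, pow_succ]; omega
      rw [← h2 k]
      omega
  · intro N
    have h1 : ∀ x ∈ FS N, valA (fun y => Bd U (4 * eP y + 3) (rP y)) x ^ 2 ≤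
        1 + 3 * ∑ j ∈ Finset.range (N + 1), if Bd U (4 * j + 3) x then 4 ^ j else 0 := by
      intro x hx
      unfold valA
      simp only [eP_una, rP_una]
      rw [mem_FS.1 hx]
      exact (sq_aux (fun j => Bd U (4 * j + 3) x) (N + 1)).2
    have h2 := Finset.sum_le_sum h1
    rw [Finset.sum_add_distrib, ← Finset.mul_sum, Finset.sum_comm, Finset.sum_const, card_FS, smul_eq_mul,
      mul_one] at h2
    have h3 : ∀ j : ℕ, (∑ x ∈ FS N, if Bd U (4 * j + 3) x then 4 ^ j else 0) =
        4 ^ j * sumA (Bd U (4 * j + 3)) N (fun _ => 1) := by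
      intro j
      unfold sumA
      rw [Finset.mul_sum]
      refine Finset.sum_congr rfl fun x _ => ?_
      split_ifs <;> simp
    simp only [h3] at h2
    -- real estimate
    have h4 : ∀ j : ℕ, ((4 ^ j * sumA (Bd U (4 * j + 3)) N (fun _ => 1) : ℕ) : ℝ) ≤
        2 ^ N / 8 * (1 / 4) ^ j := by
      intro j
      have h5 := count_Bd U (4 * j + 3) N
      have h6 : ((sumA (Bd U (4 * j + 3)) N (fun _ => 1) * 2 ^ (4 * j + 3) : ℕ) : ℝ) ≤ ((2 ^ N : ℕ) : ℝ) := by
        exact_mod_cast h5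
      push_cast at h6 ⊢
      have h7 : (2 : ℝ) ^ (4 * j + 3) = 8 * (4 ^ j * 4 ^ j) := by
        rw [pow_add, pow_mul, ← mul_pow]; norm_num; ring
      rw [h7] at h6
      have h8 : (0 : ℝ) < 4 ^ j := by positivity
      rw [div_mul_eq_mul_div, one_div, inv_pow, ← div_eq_mul_inv, div_div, le_div_iff₀ (by positivity)]
      linarith
    have h9 : ((∑ j ∈ Finset.range (N + 1), 4 ^ j * sumA (Bd U (4 * j + 3)) N (fun _ => 1) : ℕ) : ℝ) ≤
        2 ^ N / 6 := by
      push_cast
      have h10 : ∀ n : ℕ, ∑ j ∈ Finset.range n, 2 ^ N / 8 * ((1 : ℝ) / 4) ^ j =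
          2 ^ N / 6 * (1 - (1 / 4) ^ n) := by
        intro n
        induction n with
        | zero => simp
        | succ n ih => rw [Finset.sum_range_succ, ih, pow_succ]; ring
      have h11 := Finset.sum_le_sum (s := Finset.range (N + 1)) (fun j _ => h4 j)
      rw [h10] at h11
      push_cast at h11
      refine h11.trans ?_
      have h12 : (0 : ℝ) ≤ (1 / 4) ^ (N + 1) := by positivity
      have h13 : (0 : ℝ) ≤ 2 ^ N / 6 := by positivity
      nlinarith
    have h14 : ((∑ x ∈ FS N, valA (fun y => Bd U (4 * eP y + 3) (rP y)) x ^ 2 : ℕ) : ℝ) ≤ ((2 * 2 ^ N : ℕ) : ℝ) := by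
      have h15 : ((∑ x ∈ FS N, valA (fun y => Bd U (4 * eP y + 3) (rP y)) x ^ 2 : ℕ) : ℝ) ≤
          ((2 ^ N + 3 * ∑ j ∈ Finset.range (N + 1), 4 ^ j * sumA (Bd U (4 * j + 3)) N (fun _ => 1) : ℕ) : ℝ) := by
        exact_mod_cast h2
      refine h15.trans ?_
      rw [Nat.cast_add, Nat.cast_mul, Nat.cast_mul]
      push_cast at h9 ⊢
      have : (0 : ℝ) < 2 ^ N := by positivity
      linarith
    exact_mod_cast h14

/-- **The sequence of functions.** There is a constant `c` such that for every `m` there are a level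
`T ≥ m`, a function `w` on the strings of length `T` and weights `a` on `[m, T]` with: `w / 2 ^ (m+1)`
dominates the convex combination of the powers `2 ^ k`, `k` a quarter of the deficiency (rounded
down), and for all long strings `x` the deficiency of `x` is at least `log₂ (w (x↾T) / 2 ^ (m+1)) - c`. -/
theorem main_seq {U : List Bool →. List Bool} (hU : OptPlain U) :
    ∃ c : ℕ, ∀ m : ℕ, ∃ (T : ℕ) (w : List Bool → ℕ) (a : ℕ → ℕ) (g : List Bool → ℕ),
      0 < ∑ n ∈ Finset.Icc m T, a n ∧ (∀ x, 1 ≤ g x) ∧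
      (∀ (k : ℕ) (x : List Bool), cx U x + 4 * k ≤ x.length → 2 ^ k ≤ g x) ∧
      (∀ x ∈ FS T, 2 ^ (m + 1) * ∑ n ∈ Finset.Icc m T, a n * g (x.take n) ≤
        (∑ n ∈ Finset.Icc m T, a n) * w x) ∧
      ∃ n0, ∀ n, n0 ≤ n → ∀ (j : ℕ) (x : List Bool), x.length = n → 2 ^ (j + (m + 1)) ≤ w (x.take T) →
        cx U x + j ≤ n + c := by
  obtain ⟨Q, hQ, hmono, hB⟩ := s1_BB hU.1
  obtain ⟨c, hc⟩ := cx_bound hU hQ
  refine ⟨c, fun m => ?_⟩
  obtain ⟨e, ⟨A, hA⟩, n0, hn0⟩ := chain (B := BB U) (Q := Q) (fun k x => hB (k, x)) hmono (valid_BB U) m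
  refine ⟨e.1, Pool.Agent.H561R3.ev e.2.1, fun n => e.2.2.getD n 0, valA A, hA.2.1.1, ?_, ?_, hA.2.1.2,
    max n0 (m + 1), ?_⟩
  · intro x; unfold valA; omega
  · intro k x hk
    refine hA.1.1 k x ?_
    rcases Nat.eq_zero_or_pos k with h | h
    · left; exact h
    · right
      have hne : {l : ℕ | ∃ p : List Bool, p.length = l ∧ x ∈ U p}.Nonempty := by
        obtain ⟨c', hc'⟩ := hU.2 (fun p => Part.some p) Computable.id.partrec
        obtain ⟨q, hq1, _⟩ := hc' x x (Part.mem_some x)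
        exact ⟨q.length, q, rfl, hq1⟩
      obtain ⟨q, hq1, hq2⟩ := Nat.sInf_mem hne
      refine ⟨q, hq2, ?_⟩
      have : q.length = cx U x := hq1
      omega
  · intro n hn j x hx hbig
    refine hc n j x hx ?_
    have h1 := hn0 n (le_trans (le_max_left _ _) hn)
    have hmn : m + 1 ≤ n := le_trans (le_max_right _ _) hn
    obtain ⟨h2, h3, h4⟩ := R_mono (Q := Q) n (m + 1) (n - (m + 1))
    have h5 : m + 1 + (n - (m + 1)) = n := by omega
    rw [h5] at h2 h3 h4
    have hT := (R_valid (Q := Q) n n).1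
    have h6 := h4 x (by rw [hx]; exact hT)
    rw [h1] at h6
    simp only at h6
    have h7 : 2 ^ (m + 1) * 2 ^ (j + (R Q n n).1) ≤
        2 ^ (m + 1) * Pool.Agent.H561R3.ev (R Q n n).2.2.1 (x.take (R Q n n).2.1) := by
      calc 2 ^ (m + 1) * 2 ^ (j + (R Q n n).1) = 2 ^ (R Q n n).1 * 2 ^ (j + (m + 1)) := by
            rw [pow_add 2 j, pow_add 2 j]; ring
        _ ≤ 2 ^ (R Q n n).1 * Pool.Agent.H561R3.ev e.2.1 (x.take e.1) := Nat.mul_le_mul_left _ hbig
        _ ≤ _ := h6
    exact Nat.le_of_mul_le_mul_left h7 (by positivity)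

end Pool.Agent.Q36.KM
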