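import Pool.Agent.Q36.KM.Step
import Pool.Agent.H561R3.Prim
import Pool.Agent.TH676.CK.Exist

/-! # Coding and the finite check -/

set_option autoImplicit false

namespace Pool.Agent.Q36.KM

open Encodable Pool.Agent.Helper227
open Pool.Agent.H561R3 (strs mem_strs nodup_strs FS mem_FS card_FS sum_FS upTo mem_upTo pr_upTo KK pr_KK
  inL ev pr_inL pr_ev pr_pow pr_sum pr_strs exists_code_set exists_code_fun)
open Pool.Agent.Helper981.KP (una length_una primrec_una)

open Classical in
/-- the function with positive values coded by the set of strings `A` -/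
noncomputable def valA (A : List Bool → Prop) (x : List Bool) : ℕ :=
  1 + ∑ j ∈ Finset.range (x.length + 1), if A (una j ++ x) then 2 ^ j else 0

/-- the same for a set given by a code -/
def cval (L x : List Bool) : ℕ :=
  1 + ((List.range (x.length + 1)).map (fun j => if inL L (una j ++ x) then 2 ^ j else 0)).sum

theorem sum_range_list (f : ℕ → ℕ) (n : ℕ) : ((List.range n).map f).sum = ∑ i ∈ Finset.range n, f i := by
  induction n with
  | zero => simp
  | succ n ih =>
    rw [List.range_succ, List.map_append, List.sum_append, ih, Finset.sum_range_succ]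
    simp

theorem cval_eq {A : List Bool → Prop} {L : List Bool} {b : ℕ}
    (h : ∀ y : List Bool, y.length ≤ 2 * b + 2 → (inL L y ↔ A y)) {x : List Bool} (hx : x.length ≤ b) :
    cval L x = valA A x := by
  classical
  unfold cval valA
  rw [sum_range_list]
  congr 1
  refine Finset.sum_congr rfl fun j hj => ?_
  rw [Finset.mem_range] at hj
  have h1 := h (una j ++ x) (by rw [List.length_append, length_una]; omega)
  by_cases h2 : A (una j ++ x)
  · rw [if_pos h2, if_pos (h1.2 h2)]
  · rw [if_neg h2, if_neg (fun h3 => h2 (h1.1 h3))]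

section
variable {α : Type*} [Primcodable α]

theorem pr_cval {L x : α → List Bool} (hL : Primrec L) (hx : Primrec x) :
    Primrec fun a => cval (L a) (x a) := by
  unfold cval
  refine Primrec.nat_add.comp (Primrec.const 1) ?_
  refine pr_sum (f := fun a => List.range ((x a).length + 1))
    (g := fun a j => if inL (L a) (una j ++ x a) then 2 ^ j else 0)
    (Primrec.list_range.comp (Primrec.succ.comp (Primrec.list_length.comp hx))) ?_
  refine Primrec.ite ?_ (pr_pow.comp (Primrec.const 2) Primrec.snd) (Primrec.const 0)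
  exact pr_inL (hL.comp Primrec.fst)
    (Primrec.list_append.comp (primrec_una.comp Primrec.snd) (hx.comp Primrec.fst))

end

/-- the parameters of the finite check: `(m, T, w, a, L, b)` -/
abbrev Par := ℕ × ℕ × List ℕ × List ℕ × List Bool × ℕ

/-- the total weight -/
def wtot (m T : ℕ) (a : List ℕ) : ℕ :=
  ((List.range (T + 1)).map (fun n => if m ≤ n then a.getD n 0 else 0)).sum

/-- the weighted sum -/
def wsum (m T : ℕ) (a : List ℕ) (L x : List Bool) : ℕ :=
  ((List.range (T + 1)).map (fun n => if m ≤ n then a.getD n 0 * cval L (x.take n) else 0)).sum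

/-- the finite check at stage `b` -/
def good (Q : ℕ × List Bool → ℕ → Prop) (p : Par) : Prop :=
  (∀ x ∈ upTo p.2.2.2.2.2, ∀ k < p.2.2.2.2.2 + 1,
    ¬ Q (k, x) p.2.2.2.2.2 ∨ 2 ^ k ≤ cval p.2.2.2.2.1 x) ∧
  (∀ N < p.2.2.2.2.2 + 1, ((strs N).map (fun x => cval p.2.2.2.2.1 x ^ 2)).sum ≤ 2 * 2 ^ N) ∧
  (0 < wtot p.1 p.2.1 p.2.2.2.1) ∧
  (∀ x ∈ strs p.2.1, 2 ^ (p.1 + 1) * wsum p.1 p.2.1 p.2.2.2.1 p.2.2.2.2.1 x ≤
    wtot p.1 p.2.1 p.2.2.2.1 * ev p.2.2.1 x) ∧
  (∀ N < p.2.2.2.2.2 + 1, ¬ (p.2.1 ≤ N) ∨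
    ((strs N).map (fun x => ev p.2.2.1 (x.take p.2.1) ^ 2)).sum ≤
      2 * 2 ^ (p.1 + 1) * ((strs N).map (fun x => ev p.2.2.1 (x.take p.2.1) * cval p.2.2.2.2.1 x)).sum +
        16 * (4 ^ (p.1 + 1) - 2 ^ (p.1 + 1)) * 2 ^ N)

theorem pr_wtot {α : Type*} [Primcodable α] {m T : α → ℕ} {a : α → List ℕ} (hm : Primrec m)
    (hT : Primrec T) (ha : Primrec a) : Primrec fun p => wtot (m p) (T p) (a p) := by
  unfold wtot
  refine pr_sum (f := fun p => List.range (T p + 1)) (g := fun p n => if m p ≤ n then (a p).getD n 0 else 0)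
    (Primrec.list_range.comp (Primrec.succ.comp hT)) ?_
  exact Primrec.ite (Primrec.nat_le.comp (hm.comp Primrec.fst) Primrec.snd)
    ((Primrec.list_getD 0).comp (ha.comp Primrec.fst) Primrec.snd) (Primrec.const 0)

theorem pr_wsum {α : Type*} [Primcodable α] {m T : α → ℕ} {a : α → List ℕ} {L x : α → List Bool}
    (hm : Primrec m) (hT : Primrec T) (ha : Primrec a) (hL : Primrec L) (hx : Primrec x) :
    Primrec fun p => wsum (m p) (T p) (a p) (L p) (x p) := by
  unfold wsum
  refine pr_sum (f := fun p => List.range (T p + 1))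
    (g := fun p n => if m p ≤ n then (a p).getD n 0 * cval (L p) ((x p).take n) else 0)
    (Primrec.list_range.comp (Primrec.succ.comp hT)) ?_
  refine Primrec.ite (Primrec.nat_le.comp (hm.comp Primrec.fst) Primrec.snd) ?_ (Primrec.const 0)
  refine Primrec.nat_mul.comp ((Primrec.list_getD 0).comp (ha.comp Primrec.fst) Primrec.snd) ?_
  exact pr_cval (hL.comp Primrec.fst) (Primrec.list_take.comp Primrec.snd (hx.comp Primrec.fst))

theorem pr_good {Q : ℕ × List Bool → ℕ → Prop} (hQ : PrimrecRel Q) : PrimrecPred (good Q) := by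
  have m' : Primrec (fun p : Par => p.1) := Primrec.fst
  have T' : Primrec (fun p : Par => p.2.1) := Primrec.fst.comp Primrec.snd
  have w' : Primrec (fun p : Par => p.2.2.1) := Primrec.fst.comp (Primrec.snd.comp Primrec.snd)
  have a' : Primrec (fun p : Par => p.2.2.2.1) :=
    Primrec.fst.comp (Primrec.snd.comp (Primrec.snd.comp Primrec.snd))
  have L' : Primrec (fun p : Par => p.2.2.2.2.1) :=
    Primrec.fst.comp (Primrec.snd.comp (Primrec.snd.comp (Primrec.snd.comp Primrec.snd)))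
  have b' : Primrec (fun p : Par => p.2.2.2.2.2) :=
    Primrec.snd.comp (Primrec.snd.comp (Primrec.snd.comp (Primrec.snd.comp Primrec.snd)))
  have p2 : ∀ {α : Type} [Primcodable α] {f : α → ℕ}, Primrec f → Primrec fun a => 2 ^ f a :=
    fun hf => pr_pow.comp (Primrec.const 2) hf
  have p4 : ∀ {α : Type} [Primcodable α] {f : α → ℕ}, Primrec f → Primrec fun a => 4 ^ f a :=
    fun hf => pr_pow.comp (Primrec.const 4) hf
  have psq : ∀ {α : Type} [Primcodable α] {f : α → ℕ}, Primrec f → Primrec fun a => f a ^ 2 :=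
    fun hf => pr_pow.comp hf (Primrec.const 2)
  refine PrimrecPred.and ?_ (PrimrecPred.and ?_ (PrimrecPred.and ?_ (PrimrecPred.and ?_ ?_)))
  · refine PP.all_mem (α := Par) (p := fun p x => ∀ k < p.2.2.2.2.2 + 1,
      ¬ Q (k, x) p.2.2.2.2.2 ∨ 2 ^ k ≤ cval p.2.2.2.2.1 x) ?_ (pr_upTo.comp b')
    refine PP.all_lt (α := Par × List Bool) (p := fun p k =>
      ¬ Q (k, p.2) p.1.2.2.2.2.2 ∨ 2 ^ k ≤ cval p.1.2.2.2.2.1 p.2) ?_
      (Primrec.succ.comp (b'.comp Primrec.fst))
    have c1 : Primrec (fun p : (Par × List Bool) × ℕ => p.1.1) := Primrec.fst.comp Primrec.fst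
    refine PrimrecPred.or (PrimrecPred.not ?_) ?_
    · exact hQ.comp (Primrec.snd.pair (Primrec.snd.comp Primrec.fst)) (b'.comp c1)
    · exact Primrec.nat_le.comp (p2 Primrec.snd) (pr_cval (L'.comp c1) (Primrec.snd.comp Primrec.fst))
  · refine PP.all_lt (α := Par) (p := fun p N =>
      ((strs N).map (fun x => cval p.2.2.2.2.1 x ^ 2)).sum ≤ 2 * 2 ^ N) ?_ (Primrec.succ.comp b')
    refine Primrec.nat_le.comp ?_ (Primrec.nat_mul.comp (Primrec.const 2) (p2 Primrec.snd))
    refine pr_sum (f := fun p : Par × ℕ => strs p.2) (g := fun p x => cval p.1.2.2.2.2.1 x ^ 2)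
      (pr_strs.comp Primrec.snd) ?_
    exact psq (pr_cval (L'.comp (Primrec.fst.comp Primrec.fst)) Primrec.snd)
  · exact Primrec.nat_lt.comp (Primrec.const 0) (pr_wtot m' T' a')
  · refine PP.all_mem (α := Par) (p := fun p x => 2 ^ (p.1 + 1) * wsum p.1 p.2.1 p.2.2.2.1 p.2.2.2.2.1 x ≤
      wtot p.1 p.2.1 p.2.2.2.1 * ev p.2.2.1 x) ?_ (pr_strs.comp T')
    refine Primrec.nat_le.comp (Primrec.nat_mul.comp (p2 (Primrec.succ.comp (m'.comp Primrec.fst))) ?_)
      (Primrec.nat_mul.comp ?_ ?_)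
    · exact pr_wsum (m'.comp Primrec.fst) (T'.comp Primrec.fst) (a'.comp Primrec.fst)
        (L'.comp Primrec.fst) Primrec.snd
    · exact pr_wtot (m'.comp Primrec.fst) (T'.comp Primrec.fst) (a'.comp Primrec.fst)
    · exact pr_ev (w'.comp Primrec.fst) Primrec.snd
  · refine PP.all_lt (α := Par) (p := fun p N => ¬ (p.2.1 ≤ N) ∨
      ((strs N).map (fun x => ev p.2.2.1 (x.take p.2.1) ^ 2)).sum ≤
      2 * 2 ^ (p.1 + 1) * ((strs N).map (fun x => ev p.2.2.1 (x.take p.2.1) * cval p.2.2.2.2.1 x)).sum +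
        16 * (4 ^ (p.1 + 1) - 2 ^ (p.1 + 1)) * 2 ^ N) ?_ (Primrec.succ.comp b')
    refine PrimrecPred.or (PrimrecPred.not ?_) ?_
    · exact Primrec.nat_le.comp (T'.comp Primrec.fst) Primrec.snd
    · have c1 : Primrec (fun p : (Par × ℕ) × List Bool => p.1.1) := Primrec.fst.comp Primrec.fst
      have hm1 : Primrec (fun p : Par × ℕ => p.1.1 + 1) := Primrec.succ.comp (m'.comp Primrec.fst)
      refine Primrec.nat_le.comp ?_ (Primrec.nat_add.comp (Primrec.nat_mul.comp
        (Primrec.nat_mul.comp (Primrec.const 2) (p2 hm1)) ?_) (Primrec.nat_mul.comp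
        (Primrec.nat_mul.comp (Primrec.const 16) (Primrec.nat_sub.comp (p4 hm1) (p2 hm1)))
        (p2 Primrec.snd)))
      · refine pr_sum (f := fun p : Par × ℕ => strs p.2)
          (g := fun p x => ev p.1.2.2.1 (x.take p.1.2.1) ^ 2) (pr_strs.comp Primrec.snd) ?_
        exact psq (pr_ev (w'.comp c1) (Primrec.list_take.comp (T'.comp c1) Primrec.snd))
      · refine pr_sum (f := fun p : Par × ℕ => strs p.2)
          (g := fun p x => ev p.1.2.2.1 (x.take p.1.2.1) * cval p.1.2.2.2.2.1 x)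
          (pr_strs.comp Primrec.snd) ?_
        exact Primrec.nat_mul.comp (pr_ev (w'.comp c1) (Primrec.list_take.comp (T'.comp c1) Primrec.snd))
          (pr_cval (L'.comp c1) Primrec.snd)

end Pool.Agent.Q36.KM
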