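import Pool.Agent.Q36.KM.Chain

/-! # The machine -/

set_option autoImplicit false

namespace Pool.Agent.Q36.KM

open Encodable Pool.Agent.Helper227
open Pool.Agent.H561R3 (strs mem_strs nodup_strs FS mem_FS card_FS sum_FS upTo mem_upTo pr_upTo KK pr_KK
  inL ev pr_inL pr_ev pr_pow pr_sum pr_strs exists_code_set exists_code_fun)
open Pool.Agent.Helper981.KP (una length_una primrec_una)
open Pool.Agent.TH676.CK (OptPlain cx eP rP eP_una rP_una primrec_eP primrec_rP)

section
variable {α : Type*} [Primcodable α]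

theorem pr_ext {m : α → ℕ} {e' e : α → Stt} (hm : Primrec m) (he' : Primrec e') (he : Primrec e) :
    PrimrecPred fun a => Ext (m a) (e' a) (e a) := by
  unfold Ext
  refine PrimrecPred.and ?_ (PrimrecPred.and ?_ ?_)
  · exact Primrec.nat_le.comp (Primrec.fst.comp he') (Primrec.fst.comp he)
  · exact Primrec.nat_le.comp hm (Primrec.fst.comp he)
  · refine PP.all_mem (α := α) (p := fun a x => 2 * ev (e' a).2.1 (x.take (e' a).1) ≤ ev (e a).2.1 x) ?_
      (pr_strs.comp (Primrec.fst.comp he))
    refine Primrec.nat_le.comp (Primrec.nat_mul.comp (Primrec.const 2) ?_) ?_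
    · exact pr_ev (Primrec.fst.comp (Primrec.snd.comp (he'.comp Primrec.fst))) (Primrec.list_take.comp
        (Primrec.fst.comp (he'.comp Primrec.fst)) Primrec.snd)
    · exact pr_ev (Primrec.fst.comp (Primrec.snd.comp (he.comp Primrec.fst))) Primrec.snd

theorem pr_aliveAt {Q : ℕ × List Bool → ℕ → Prop} (hQ : PrimrecRel Q) {m b : α → ℕ} {e : α → Stt}
    (hm : Primrec m) (hb : Primrec b) (he : Primrec e) :
    PrimrecPred fun a => AliveAt Q (m a) (b a) (e a) := by
  unfold AliveAt
  refine PP.ex_mem (α := α) (f := fun a => strs (KK (2 * b a + 2)))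
    (p := fun a L => good Q (m a, (e a).1, (e a).2.1, (e a).2.2, L, b a)) ?_
    (pr_strs.comp (pr_KK.comp (Primrec.nat_add.comp (Primrec.nat_mul.comp (Primrec.const 2) hb)
      (Primrec.const 2))))
  refine (pr_good hQ).comp ((hm.comp Primrec.fst).pair ((Primrec.fst.comp (he.comp Primrec.fst)).pair
    ((Primrec.fst.comp (Primrec.snd.comp (he.comp Primrec.fst))).pair
    ((Primrec.snd.comp (Primrec.snd.comp (he.comp Primrec.fst))).pair
    (Primrec.snd.pair (hb.comp Primrec.fst))))))

theorem pr_cand {Q : ℕ × List Bool → ℕ → Prop} (hQ : PrimrecRel Q) {n m c : α → ℕ} {e' : α → Stt}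
    (hn : Primrec n) (hm : Primrec m) (he' : Primrec e') (hc : Primrec c) :
    PrimrecPred fun a => cand Q (n a) (m a) (e' a) (c a) := by
  unfold cand
  refine PP.ex_mem (α := α) (f := fun a => (decode (α := Stt) (c a)).toList)
    (p := fun a e => Ext (m a) (e' a) e ∧ e.1 ≤ n a ∧ AliveAt Q (m a) (n a) e) ?_
    (Primrec.optionToList.comp (Primrec.decode.comp hc))
  refine PrimrecPred.and ?_ (PrimrecPred.and ?_ ?_)
  · exact pr_ext (hm.comp Primrec.fst) (he'.comp Primrec.fst) Primrec.snd
  · exact Primrec.nat_le.comp (Primrec.fst.comp Primrec.snd) (hn.comp Primrec.fst)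
  · exact pr_aliveAt hQ (hm.comp Primrec.fst) (hn.comp Primrec.fst) Primrec.snd

theorem pr_idx {Q : ℕ × List Bool → ℕ → Prop} (hQ : PrimrecRel Q) {n m : α → ℕ} {e' : α → Stt}
    (hn : Primrec n) (hm : Primrec m) (he' : Primrec e') :
    Primrec fun a => idx Q (n a) (m a) (e' a) := by
  classical
  unfold idx
  refine Primrec.list_findIdx (f := fun a => List.range (n a))
    (p := fun a c => decide (cand Q (n a) (m a) (e' a) c)) (Primrec.list_range.comp hn) ?_
  exact (pr_cand hQ (hn.comp Primrec.fst) (hm.comp Primrec.fst) (he'.comp Primrec.fst) Primrec.snd).decide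

end

theorem pr_stepR {Q : ℕ × List Bool → ℕ → Prop} (hQ : PrimrecRel Q) : Primrec₂ (stepR Q) := by
  unfold stepR
  have h1 : Primrec fun a : ℕ × (ℕ × Stt) => idx Q a.1 a.2.1 a.2.2 :=
    pr_idx hQ Primrec.fst (Primrec.fst.comp Primrec.snd) (Primrec.snd.comp Primrec.snd)
  refine Primrec.ite (Primrec.nat_lt.comp h1 Primrec.fst) ?_ Primrec.snd
  exact (Primrec.succ.comp (Primrec.fst.comp Primrec.snd)).pair
    (Primrec.option_getD.comp (Primrec.decode.comp h1) (Primrec.snd.comp Primrec.snd))

theorem pr_R {Q : ℕ × List Bool → ℕ → Prop} (hQ : PrimrecRel Q) : Primrec fun n : ℕ => R Q n n := by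
  unfold R
  exact Primrec.nat_iterate (f := fun n : ℕ => n) (g := fun _ => ((0, (0, [], [])) : ℕ × Stt))
    (h := fun n p => stepR Q n p) Primrec.id (Primrec.const _) (pr_stepR hQ)

/-- the strings of length `n` on which the function of stage `n` is at least `2 ^ j` -/
noncomputable def big (Q : ℕ × List Bool → ℕ → Prop) (n j : ℕ) : List (List Bool) :=
  (strs n).filter (fun x => decide (2 ^ (j + (R Q n n).1) ≤ ev (R Q n n).2.2.1 (x.take (R Q n n).2.1)))

/-- the output of the machine -/
noncomputable def outp (Q : ℕ × List Bool → ℕ → Prop) (P : List Bool) : List Bool :=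
  (big Q ((rP P).length + 2 * eP P - 6) (eP P)).getD ((strs (rP P).length).idxOf (rP P)) []

theorem pr_big {Q : ℕ × List Bool → ℕ → Prop} (hQ : PrimrecRel Q) : Primrec₂ (big Q) := by
  unfold big
  have h1 : Primrec fun a : (ℕ × ℕ) × List Bool => R Q a.1.1 a.1.1 :=
    (pr_R hQ).comp (Primrec.fst.comp Primrec.fst)
  have hp : PrimrecRel fun (a : ℕ × ℕ) (x : List Bool) =>
      2 ^ (a.2 + (R Q a.1 a.1).1) ≤ ev (R Q a.1 a.1).2.2.1 (x.take (R Q a.1 a.1).2.1) := by
    refine Primrec.nat_le.comp (pr_pow.comp (Primrec.const 2) (Primrec.nat_add.comp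
      (Primrec.snd.comp Primrec.fst) (Primrec.fst.comp h1))) ?_
    exact pr_ev (Primrec.fst.comp (Primrec.snd.comp (Primrec.snd.comp h1)))
      (Primrec.list_take.comp (Primrec.fst.comp (Primrec.snd.comp h1)) Primrec.snd)
  have h2 : Primrec fun a : ℕ × ℕ => (strs a.1).filterMap (fun x =>
      if 2 ^ (a.2 + (R Q a.1 a.1).1) ≤ ev (R Q a.1 a.1).2.2.1 (x.take (R Q a.1 a.1).2.1)
        then some x else none) := by
    refine Primrec.listFilterMap (pr_strs.comp Primrec.fst) ?_
    exact Primrec.ite hp (Primrec.option_some.comp Primrec.snd) (Primrec.const none)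
  refine h2.of_eq fun a => ?_
  beta_reduce
  rw [← List.filterMap_eq_filter]
  congr 1
  funext x
  simp [Option.guard]

theorem pr_outp {Q : ℕ × List Bool → ℕ → Prop} (hQ : PrimrecRel Q) : Primrec (outp Q) := by
  unfold outp
  have hl : Primrec fun P : List Bool => (rP P).length := Primrec.list_length.comp primrec_rP
  refine (Primrec.list_getD []).comp ?_ ?_
  · exact (pr_big hQ).comp (Primrec.nat_sub.comp (Primrec.nat_add.comp hl
      (Primrec.nat_mul.comp (Primrec.const 2) primrec_eP)) (Primrec.const 6)) primrec_eP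
  · refine (Primrec.list_idxOf.comp primrec_rP (pr_strs.comp hl)).of_eq fun a => ?_
    unfold List.idxOf
    congr 1
    funext y
    rw [Bool.eq_iff_iff]
    simp

theorem length_strs (l : ℕ) : (strs l).length = 2 ^ l := by
  rw [← card_FS l]
  unfold FS
  rw [List.toFinset_card_of_nodup (nodup_strs l)]

theorem length_big (Q : ℕ × List Bool → ℕ → Prop) (n j : ℕ) :
    (big Q n j).length * 4 ^ j ≤ 40 * 2 ^ n := by
  classical
  set m := (R Q n n).1 with hm
  set w : List Bool → ℕ := fun x => ev (R Q n n).2.2.1 (x.take (R Q n n).2.1) with hw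
  have h1 : (big Q n j).length = ((FS n).filter (fun x => 2 ^ (j + m) ≤ w x)).card := by
    unfold big
    rw [← List.toFinset_card_of_nodup ((nodup_strs n).filter _)]
    congr 1
    ext x
    rw [List.mem_toFinset, List.mem_filter, Finset.mem_filter, mem_FS, mem_strs, decide_eq_true_iff]
  have h2 := R_sq (Q := Q) n n
  have h3 : ((FS n).filter (fun x => 2 ^ (j + m) ≤ w x)).card * (2 ^ (j + m)) ^ 2 ≤ ∑ x ∈ FS n, w x ^ 2 := by
    rw [Finset.card_eq_sum_ones, Finset.sum_mul]
    refine (Finset.sum_le_sum (g := fun x => w x ^ 2) fun x hx => ?_).trans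
      (Finset.sum_le_sum_of_subset (Finset.filter_subset _ _))
    rw [one_mul]
    exact Nat.pow_le_pow_left (Finset.mem_filter.1 hx).2 2
  have h4 : (2 ^ (j + m)) ^ 2 = 4 ^ j * 4 ^ m := by
    rw [← pow_mul, mul_comm, pow_mul]; norm_num [pow_add]
  rw [h1]
  have h5 : ((FS n).filter (fun x => 2 ^ (j + m) ≤ w x)).card * 4 ^ j * 4 ^ m ≤ 40 * 2 ^ n * 4 ^ m := by
    calc _ = ((FS n).filter (fun x => 2 ^ (j + m) ≤ w x)).card * (2 ^ (j + m)) ^ 2 := by rw [h4]; ring
      _ ≤ ∑ x ∈ FS n, w x ^ 2 := h3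
      _ ≤ 40 * 4 ^ m * 2 ^ n := h2
      _ = _ := by ring
  exact Nat.le_of_mul_le_mul_right h5 (by positivity)

/-- **the complexity bound**: large values of the function of stage `n` force compressibility -/
theorem cx_bound {U : List Bool →. List Bool} (hU : OptPlain U) {Q : ℕ × List Bool → ℕ → Prop}
    (hQ : PrimrecRel Q) : ∃ c : ℕ, ∀ n j : ℕ, ∀ x : List Bool, x.length = n →
      2 ^ (j + (R Q n n).1) ≤ ev (R Q n n).2.2.1 (x.take (R Q n n).2.1) → cx U x + j ≤ n + c := by
  classical
  obtain ⟨c, hc⟩ := hU.2 (fun P => Part.some (outp Q P)) (pr_outp hQ).to_comp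
  refine ⟨c + 7, fun n j x hx hbig => ?_⟩
  have hmem : x ∈ big Q n j := by
    unfold big
    rw [List.mem_filter]
    exact ⟨mem_strs.2 hx, decide_eq_true hbig⟩
  obtain ⟨i, hi, hix⟩ := List.getElem_of_mem hmem
  have hlen := length_big Q n j
  have h1 : 4 ^ j ≤ 40 * 2 ^ n := by
    have : 1 ≤ (big Q n j).length := by omega
    nlinarith [Nat.zero_le (4 ^ j)]
  have h2 : 2 * j < n + 6 := by
    by_contra hcon
    push Not at hcon
    have h3 : 2 ^ (n + 6) ≤ 2 ^ (2 * j) := Nat.pow_le_pow_right (by norm_num) hcon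
    have h4 : 2 ^ (2 * j) = 4 ^ j := by rw [pow_mul]; norm_num
    rw [h4, pow_add] at h3
    have : 0 < 2 ^ n := by positivity
    omega
  set l := n + 6 - 2 * j with hl
  have h3 : (big Q n j).length < 2 ^ l := by
    by_contra hcon
    push Not at hcon
    have h4 : 2 ^ l * 4 ^ j = 64 * 2 ^ n := by
      have h5 : 4 ^ j = 2 ^ (2 * j) := by rw [pow_mul]; norm_num
      rw [h5, ← pow_add]
      have h6 : l + 2 * j = n + 6 := by omega
      rw [h6, pow_add]; ring
    have h5 : 2 ^ l * 4 ^ j ≤ (big Q n j).length * 4 ^ j := Nat.mul_le_mul_right _ hcon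
    have : 0 < 2 ^ n := by positivity
    omega
  have hil : i < (strs l).length := by rw [length_strs]; omega
  set q := (strs l)[i] with hq
  have hql : q.length = l := mem_strs.1 (List.getElem_mem hil)
  have hidx : (strs l).idxOf q = i := (nodup_strs l).idxOf_getElem i hil
  have hout : outp Q (una j ++ q) = x := by
    unfold outp
    rw [eP_una, rP_una, hql, hidx]
    have h6 : l + 2 * j - 6 = n := by omega
    rw [h6, List.getD_eq_getElem _ _ hi, hix]
  obtain ⟨q', hq1, hq2⟩ := hc (una j ++ q) x (by rw [hout]; exact Part.mem_some x)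
  have h7 : cx U x ≤ q'.length := Nat.sInf_le ⟨q', rfl, hq1⟩
  rw [List.length_append, length_una, hql] at hq2
  omega

end Pool.Agent.Q36.KM
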