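import Pool.Agent.Q36.KM.Cnt
import Pool.Agent.Q316.KC.Wt

/-! # Measures -/

set_option autoImplicit false

open MeasureTheory

namespace Pool.Agent.Q36.KM

open Pool.Agent.H561R3 (FS mem_FS)
open Pool.Agent.TH676.CK (OptPlain cx)
open Pool.Agent.Q316.KC (avg L mem_L wt wt_nonneg sum_wt sum_wt_ext avg_eq avg_le)

section
variable (μ : Measure (ℕ → Bool)) [IsProbabilityMeasure μ]

lemma sum_take_wt {n N : ℕ} (h : n ≤ N) (f : List Bool → ℝ) :
    ∑ y ∈ L N, wt μ y * f (y.take n) = ∑ x ∈ L n, wt μ x * f x := by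
  have hmaps : ∀ y ∈ L N, y.take n ∈ L n := by
    intro y hy
    rw [mem_L] at hy ⊢
    rw [List.length_take, hy]
    omega
  rw [← Finset.sum_fiberwise_of_maps_to hmaps]
  refine Finset.sum_congr rfl fun x hx => ?_
  have hx' := mem_L.1 hx
  have h1 := sum_wt_ext μ x (N := N) (by omega)
  rw [hx'] at h1
  rw [← h1, Finset.sum_mul]
  refine Finset.sum_congr rfl fun y hy => ?_
  rw [Finset.mem_filter] at hy
  rw [hy.2]

end

/-- the data of one stage -/
structure Stage (U : List Bool →. List Bool) (c m T : ℕ) (w : List Bool → ℕ) (a : ℕ → ℕ)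
    (g : List Bool → ℕ) : Prop where
  pos : 0 < ∑ n ∈ Finset.Icc m T, a n
  one_le : ∀ x, 1 ≤ g x
  pow_le : ∀ (k : ℕ) (x : List Bool), cx U x + 4 * k ≤ x.length → 2 ^ k ≤ g x
  dom : ∀ x ∈ FS T, 2 ^ (m + 1) * ∑ n ∈ Finset.Icc m T, a n * g (x.take n) ≤
        (∑ n ∈ Finset.Icc m T, a n) * w x
  large : ∃ n0, ∀ n, n0 ≤ n → ∀ (j : ℕ) (x : List Bool), x.length = n → 2 ^ (j + (m + 1)) ≤ w (x.take T) →
        cx U x + j ≤ n + c

/-- the logarithm of the function of the stage -/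
def lg (m : ℕ) (w : List Bool → ℕ) (x : List Bool) : ℕ := Nat.log 2 (w x / 2 ^ (m + 1))

lemma Stage.w_ge {U : List Bool →. List Bool} {c m T : ℕ} {w : List Bool → ℕ} {a : ℕ → ℕ}
    {g : List Bool → ℕ} (h : Stage U c m T w a g) {x : List Bool} (hx : x ∈ FS T) : 2 ^ (m + 1) ≤ w x := by
  have h1 := h.dom x hx
  have h2 : ∑ n ∈ Finset.Icc m T, a n ≤ ∑ n ∈ Finset.Icc m T, a n * g (x.take n) := by
    refine Finset.sum_le_sum fun n _ => ?_
    have := h.one_le (x.take n)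
    exact Nat.le_mul_of_pos_right _ this
  have h3 : (∑ n ∈ Finset.Icc m T, a n) * 2 ^ (m + 1) ≤ (∑ n ∈ Finset.Icc m T, a n) * w x := by
    refine le_trans ?_ h1
    rw [mul_comm]
    exact Nat.mul_le_mul_left _ h2
  exact Nat.le_of_mul_le_mul_left h3 h.pos

/-- the upper bound for the mean of the logarithm -/
lemma Stage.upper {U : List Bool →. List Bool} {c m T : ℕ} {w : List Bool → ℕ} {a : ℕ → ℕ}
    {g : List Bool → ℕ} (h : Stage U c m T w a g) (μ : Measure (ℕ → Bool)) [IsProbabilityMeasure μ]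
    {d : ℝ} (hμ : ∃ᶠ n : ℕ in Filter.atTop, (n : ℝ) - d ≤ avg μ (cx U) n) :
    ∑ x ∈ L T, wt μ x * (lg m w x : ℝ) ≤ c + d := by
  obtain ⟨n0, hn0⟩ := h.large
  obtain ⟨n, hn, hnd⟩ := (Filter.frequently_atTop.1 hμ) (max n0 T)
  have h1 : avg μ (cx U) n ≤ ∑ x ∈ L T, wt μ x * ((n : ℝ) + c - lg m w x) := by
    refine avg_le μ (le_trans (le_max_right _ _) hn) (cx U) (fun x => (n : ℝ) + c - lg m w x) ?_
    intro x y hx hy hyx
    have hwx := h.w_ge (mem_FS.2 hx)
    have hdiv : 0 < w x / 2 ^ (m + 1) := Nat.div_pos hwx (by positivity)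
    have h2 : 2 ^ (lg m w x + (m + 1)) ≤ w (y.take T) := by
      rw [hyx, pow_add]
      have h3 : 2 ^ lg m w x ≤ w x / 2 ^ (m + 1) := Nat.pow_log_le_self 2 hdiv.ne'
      exact (Nat.mul_le_mul_right _ h3).trans (Nat.div_mul_le_self _ _)
    have h4 := hn0 n (le_trans (le_max_left _ _) hn) (lg m w x) y hy h2
    have h5 : ((cx U y : ℕ) : ℝ) + lg m w x ≤ n + c := by exact_mod_cast h4
    linarith
  have h2 : ∑ x ∈ L T, wt μ x * ((n : ℝ) + c - lg m w x) =
      ((n : ℝ) + c) - ∑ x ∈ L T, wt μ x * (lg m w x : ℝ) := by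
    simp only [mul_sub, Finset.sum_sub_distrib, ← Finset.sum_mul, sum_wt μ T, one_mul]
  rw [h2] at h1
  linarith

/-- the pointwise lower bound for the logarithm -/
lemma Stage.lower {U : List Bool →. List Bool} {c m T : ℕ} {w : List Bool → ℕ} {a : ℕ → ℕ}
    {g : List Bool → ℕ} (h : Stage U c m T w a g) {x : List Bool} (hx : x ∈ FS T) :
    ∑ n ∈ Finset.Icc m T, (a n : ℝ) / (∑ n ∈ Finset.Icc m T, (a n : ℝ)) *
      ((((n : ℝ) - cx U (x.take n)) / 4)) ≤ (lg m w x : ℝ) + 2 := by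
  set A : ℝ := ∑ n ∈ Finset.Icc m T, (a n : ℝ) with hA
  have hA0 : 0 < A := by
    have := h.pos
    rw [hA]
    exact_mod_cast this
  have hp0 : ∀ n ∈ Finset.Icc m T, 0 ≤ (a n : ℝ) / A := fun n _ => by positivity
  have hp1 : ∑ n ∈ Finset.Icc m T, (a n : ℝ) / A = 1 := by
    rw [← Finset.sum_div, ← hA, div_self hA0.ne']
  have hg0 : ∀ n ∈ Finset.Icc m T, (g (x.take n) : ℝ) ∈ Set.Ioi (0 : ℝ) := by
    intro n _
    have := h.one_le (x.take n)
    rw [Set.mem_Ioi]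
    exact_mod_cast this
  have hxl := mem_FS.1 hx
  -- the deficiency of the prefixes
  have hd : ∀ n ∈ Finset.Icc m T, ((n : ℝ) - cx U (x.take n)) / 4 - 1 ≤ Real.logb 2 (g (x.take n)) := by
    intro n hn
    rw [Finset.mem_Icc] at hn
    have hl : (x.take n).length = n := by rw [List.length_take, hxl]; omega
    have hg1 : (1 : ℝ) ≤ g (x.take n) := by exact_mod_cast h.one_le (x.take n)
    rcases Nat.lt_or_ge n (cx U (x.take n)) with h1 | h1
    · have h2 : (n : ℝ) ≤ cx U (x.take n) := by exact_mod_cast h1.le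
      have h3 : 0 ≤ Real.logb 2 (g (x.take n)) := Real.logb_nonneg (by norm_num) hg1
      linarith
    · set k := (n - cx U (x.take n)) / 4 with hk
      have h2 := h.pow_le k (x.take n) (by rw [hl]; omega)
      have h3 : (k : ℝ) ≤ Real.logb 2 (g (x.take n)) := by
        rw [Real.le_logb_iff_rpow_le (by norm_num) (by linarith), Real.rpow_natCast]
        exact_mod_cast h2
      have h4 : n < 4 * k + 4 + cx U (x.take n) := by omega
      have h5 : (n : ℝ) < 4 * k + 4 + cx U (x.take n) := by exact_mod_cast h4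
      linarith
  -- Jensen
  have hconc : ConcaveOn ℝ (Set.Ioi 0) Real.log := strictConcaveOn_log_Ioi.concaveOn
  have hJ := hconc.le_map_sum hp0 hp1 hg0
  simp only [smul_eq_mul] at hJ
  have hlog2 : 0 < Real.log 2 := Real.log_pos (by norm_num)
  have hJ2 : ∑ n ∈ Finset.Icc m T, (a n : ℝ) / A * Real.logb 2 (g (x.take n)) ≤
      Real.logb 2 (∑ n ∈ Finset.Icc m T, (a n : ℝ) / A * g (x.take n)) := by
    unfold Real.logb
    rw [le_div_iff₀ hlog2, Finset.sum_mul]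
    refine le_trans (le_of_eq ?_) hJ
    refine Finset.sum_congr rfl fun n _ => ?_
    field_simp
  -- the function dominates
  have hdom : ∑ n ∈ Finset.Icc m T, (a n : ℝ) / A * g (x.take n) ≤ (w x : ℝ) / 2 ^ (m + 1) := by
    have h1 : ((2 ^ (m + 1) * ∑ n ∈ Finset.Icc m T, a n * g (x.take n) : ℕ) : ℝ) ≤
        (((∑ n ∈ Finset.Icc m T, a n) * w x : ℕ) : ℝ) := by exact_mod_cast h.dom x hx
    push_cast at h1
    rw [← hA] at h1
    rw [le_div_iff₀ (by positivity)]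
    have h2 : ∑ n ∈ Finset.Icc m T, (a n : ℝ) / A * g (x.take n) =
        (∑ n ∈ Finset.Icc m T, (a n : ℝ) * g (x.take n)) / A := by
      rw [Finset.sum_div]
      exact Finset.sum_congr rfl fun n _ => by ring
    rw [h2, div_mul_eq_mul_div, div_le_iff₀ hA0]
    linarith
  have hsumpos : 0 < ∑ n ∈ Finset.Icc m T, (a n : ℝ) / A * g (x.take n) := by
    have h1 : (1 : ℝ) ≤ ∑ n ∈ Finset.Icc m T, (a n : ℝ) / A * g (x.take n) := by
      rw [← hp1]
      refine Finset.sum_le_sum fun n hn => ?_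
      have hg1 : (1 : ℝ) ≤ g (x.take n) := by exact_mod_cast h.one_le (x.take n)
      have := hp0 n hn
      nlinarith
    linarith
  have hwx := h.w_ge hx
  have hlw : Real.logb 2 ((w x : ℝ) / 2 ^ (m + 1)) ≤ (lg m w x : ℝ) + 1 := by
    have h1 : w x / 2 ^ (m + 1) < 2 ^ (lg m w x + 1) := Nat.lt_pow_succ_log_self (by norm_num) _
    have h2 : w x < 2 ^ (lg m w x + 1) * 2 ^ (m + 1) := (Nat.div_lt_iff_lt_mul (by positivity)).1 h1
    have h3 : (w x : ℝ) / 2 ^ (m + 1) ≤ 2 ^ (lg m w x + 1) := by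
      rw [div_le_iff₀ (by positivity)]
      exact_mod_cast h2.le
    have h4 : (0 : ℝ) < (w x : ℝ) / 2 ^ (m + 1) := by
      have : 0 < w x := lt_of_lt_of_le (by positivity) hwx
      positivity
    have h5 : ((lg m w x + 1 : ℕ) : ℝ) = (lg m w x : ℝ) + 1 := by push_cast; ring
    rw [Real.logb_le_iff_le_rpow (by norm_num) h4, ← h5, Real.rpow_natCast]
    exact h3
  calc ∑ n ∈ Finset.Icc m T, (a n : ℝ) / A * ((((n : ℝ) - cx U (x.take n)) / 4))
      ≤ ∑ n ∈ Finset.Icc m T, (a n : ℝ) / A * (Real.logb 2 (g (x.take n)) + 1) := by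
        refine Finset.sum_le_sum fun n hn => ?_
        refine mul_le_mul_of_nonneg_left ?_ (hp0 n hn)
        have := hd n hn
        linarith
    _ = ∑ n ∈ Finset.Icc m T, (a n : ℝ) / A * Real.logb 2 (g (x.take n)) + 1 := by
        simp only [mul_add, mul_one, Finset.sum_add_distrib, hp1]
    _ ≤ Real.logb 2 ((w x : ℝ) / 2 ^ (m + 1)) + 1 := by
        have := hJ2.trans (Real.logb_le_logb_of_le (by norm_num) hsumpos hdom)
        linarith
    _ ≤ (lg m w x : ℝ) + 2 := by linarith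

/-- the mean over the weights of the mean deficiency -/
lemma Stage.mean {U : List Bool →. List Bool} {c m T : ℕ} {w : List Bool → ℕ} {a : ℕ → ℕ}
    {g : List Bool → ℕ} (h : Stage U c m T w a g) (μ : Measure (ℕ → Bool)) [IsProbabilityMeasure μ]
    {d : ℝ} (hμ : ∃ᶠ n : ℕ in Filter.atTop, (n : ℝ) - d ≤ avg μ (cx U) n) :
    ∑ n ∈ Finset.Icc m T, (a n : ℝ) / (∑ n ∈ Finset.Icc m T, (a n : ℝ)) *
      ((n : ℝ) - avg μ (cx U) n) ≤ 4 * (c + d + 2) := by
  have h1 := h.upper μ hμ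
  have hFL : ∀ x ∈ L T, x ∈ FS T := fun x hx => mem_FS.2 (mem_L.1 hx)
  have h2 : ∑ x ∈ L T, wt μ x * (∑ n ∈ Finset.Icc m T, (a n : ℝ) / (∑ n ∈ Finset.Icc m T, (a n : ℝ)) *
      ((((n : ℝ) - cx U (x.take n)) / 4))) ≤ ∑ x ∈ L T, wt μ x * ((lg m w x : ℝ) + 2) :=
    Finset.sum_le_sum fun x hx => mul_le_mul_of_nonneg_left (h.lower (hFL x hx)) (wt_nonneg μ x)
  have h3 : ∑ x ∈ L T, wt μ x * ((lg m w x : ℝ) + 2) = ∑ x ∈ L T, wt μ x * (lg m w x : ℝ) + 2 := by
    simp only [mul_add, Finset.sum_add_distrib, ← Finset.sum_mul, sum_wt μ T, one_mul]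
  have h4 : ∑ x ∈ L T, wt μ x * (∑ n ∈ Finset.Icc m T, (a n : ℝ) / (∑ n ∈ Finset.Icc m T, (a n : ℝ)) *
      ((((n : ℝ) - cx U (x.take n)) / 4))) =
      1 / 4 * ∑ n ∈ Finset.Icc m T, (a n : ℝ) / (∑ n ∈ Finset.Icc m T, (a n : ℝ)) *
      ((n : ℝ) - avg μ (cx U) n) := by
    simp only [Finset.mul_sum]
    rw [Finset.sum_comm]
    refine Finset.sum_congr rfl fun n hn => ?_
    rw [Finset.mem_Icc] at hn
    have h5 := sum_take_wt μ hn.2 (fun z => ((n : ℝ) - cx U z) / 4)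
    have h6 : ∑ z ∈ L n, wt μ z * (((n : ℝ) - cx U z) / 4) = ((n : ℝ) - avg μ (cx U) n) / 4 := by
      rw [avg_eq]
      have : ∀ z ∈ L n, wt μ z * (((n : ℝ) - cx U z) / 4) = (wt μ z * n - wt μ z * cx U z) / 4 :=
        fun z _ => by ring
      rw [Finset.sum_congr rfl this, ← Finset.sum_div, Finset.sum_sub_distrib, ← Finset.sum_mul,
        sum_wt μ n, one_mul]
    rw [h6] at h5
    have h7 : ∑ x ∈ L T, wt μ x * ((a n : ℝ) / (∑ n ∈ Finset.Icc m T, (a n : ℝ)) *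
        (((n : ℝ) - cx U (x.take n)) / 4)) = (a n : ℝ) / (∑ n ∈ Finset.Icc m T, (a n : ℝ)) *
        ∑ x ∈ L T, wt μ x * (((n : ℝ) - cx U (x.take n)) / 4) := by
      rw [Finset.mul_sum]
      exact Finset.sum_congr rfl fun x _ => by ring
    rw [h7, h5]
    ring
  rw [h4, h3] at h2
  linarith

/-- **Simultaneous complexity**: two measures of infinitely often high complexity have it at common
lengths. -/
theorem simul {U : List Bool →. List Bool} (hU : OptPlain U) (μ ν : Measure (ℕ → Bool))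
    [IsProbabilityMeasure μ] [IsProbabilityMeasure ν] {d d' : ℝ}
    (hμ : ∃ᶠ n : ℕ in Filter.atTop, (n : ℝ) - d ≤ avg μ (cx U) n)
    (hν : ∃ᶠ n : ℕ in Filter.atTop, (n : ℝ) - d' ≤ avg ν (cx U) n) :
    ∃ K : ℝ, ∃ᶠ n : ℕ in Filter.atTop, ((n : ℝ) - avg μ (cx U) n) + ((n : ℝ) - avg ν (cx U) n) ≤ K := by
  obtain ⟨c, hc⟩ := main_seq hU
  refine ⟨4 * (c + d + 2) + 4 * (c + d' + 2), ?_⟩
  rw [Filter.frequently_atTop]
  intro m
  obtain ⟨T, w, a, g, h1, h2, h3, h4, h5⟩ := hc m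
  have hS : Stage U c m T w a g := ⟨h1, h2, h3, h4, h5⟩
  have hm1 := hS.mean μ hμ
  have hm2 := hS.mean ν hν
  by_contra hcon
  push Not at hcon
  set A : ℝ := ∑ n ∈ Finset.Icc m T, (a n : ℝ) with hA
  have hA0 : 0 < A := by
    rw [hA]
    exact_mod_cast h1
  have hp1 : ∑ n ∈ Finset.Icc m T, (a n : ℝ) / A = 1 := by
    rw [← Finset.sum_div, ← hA, div_self hA0.ne']
  have hlt : ∑ n ∈ Finset.Icc m T, (a n : ℝ) / A * (4 * (c + d + 2) + 4 * (c + d' + 2)) <
      ∑ n ∈ Finset.Icc m T, (a n : ℝ) / A * (((n : ℝ) - avg μ (cx U) n) + ((n : ℝ) - avg ν (cx U) n)) := by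
    obtain ⟨i, hi, hai⟩ : ∃ i ∈ Finset.Icc m T, 0 < a i := by
      by_contra hno
      push Not at hno
      have : ∑ n ∈ Finset.Icc m T, a n = 0 := Finset.sum_eq_zero fun n hn => by have := hno n hn; omega
      omega
    refine Finset.sum_lt_sum (fun n hn => ?_) ⟨i, hi, ?_⟩
    · exact mul_le_mul_of_nonneg_left (hcon n (Finset.mem_Icc.1 hn).1).le (by positivity)
    · have : (0 : ℝ) < (a i : ℝ) / A := by positivity
      exact mul_lt_mul_of_pos_left (hcon i (Finset.mem_Icc.1 hi).1) this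
  rw [← Finset.sum_mul, hp1, one_mul] at hlt
  simp only [mul_add, Finset.sum_add_distrib] at hlt
  simp only [mul_add] at hm1 hm2
  linarith

end Pool.Agent.Q36.KM
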