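import Pool.Agent.H561R3.Strs

/-! # The near-minimal increment -/

set_option autoImplicit false

namespace Pool.Agent.Q36.KM

open Pool.Agent.H561R3 (strs mem_strs nodup_strs FS mem_FS card_FS)

theorem sumR_FS {n : ℕ} (f : List Bool → ℝ) : ∑ x ∈ FS n, f x = ((strs n).map f).sum := by
  unfold FS
  exact List.sum_toFinset f (nodup_strs n)

theorem sumR_flatMap_aux (L : List (List Bool)) (g : List Bool → ℝ) :
    ((L.flatMap (fun σ => [σ ++ [false], σ ++ [true]])).map g).sum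
      = (L.map (fun σ => g (σ ++ [false]) + g (σ ++ [true]))).sum := by
  induction L with
  | nil => simp
  | cons a L ih =>
    simp only [List.flatMap_cons, List.map_append, List.sum_append, ih, List.map_cons,
      List.map_nil, List.sum_cons, List.sum_nil]
    ring

theorem sumR_FS_succ (n : ℕ) (g : List Bool → ℝ) :
    ∑ x ∈ FS (n + 1), g x = ∑ x ∈ FS n, (g (x ++ [false]) + g (x ++ [true])) := by
  rw [sumR_FS, sumR_FS]
  exact sumR_flatMap_aux _ _

theorem sumR_take {T N : ℕ} (h : T ≤ N) (f : List Bool → ℝ) :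
    ∑ x ∈ FS N, f (x.take T) = 2 ^ (N - T) * ∑ x ∈ FS T, f x := by
  induction N, h using Nat.le_induction with
  | base =>
    simp only [Nat.sub_self, pow_zero, one_mul]
    refine Finset.sum_congr rfl fun x hx => ?_
    rw [List.take_of_length_le (by rw [mem_FS.1 hx])]
  | succ N h ih =>
    rw [sumR_FS_succ]
    have : ∀ x ∈ FS N, f ((x ++ [false]).take T) + f ((x ++ [true]).take T)
        = 2 * f (x.take T) := by
      intro x hx
      have hx' := mem_FS.1 hx
      rw [List.take_append_of_le_length (by omega), List.take_append_of_le_length (by omega)]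
      ring
    rw [Finset.sum_congr rfl this, ← Finset.mul_sum, ih, ← mul_assoc, ← pow_succ']
    congr 2
    omega

/-- `u` is admissible: `v + u` dominates a convex combination of the functions `G` at the levels
`m, ..., T` -/
def Adm (G : List Bool → ℝ) (m T0 : ℕ) (v : List Bool → ℝ) (T : ℕ) (a : ℕ → ℕ) (u : List Bool → ℝ) : Prop :=
  T0 ≤ T ∧ (∀ x, 0 ≤ u x) ∧ 0 < ∑ n ∈ Finset.Icc m T, a n ∧
    ∀ x ∈ FS T, ∑ n ∈ Finset.Icc m T, (a n : ℝ) * G (x.take n) ≤
      (∑ n ∈ Finset.Icc m T, (a n : ℝ)) * (v (x.take T0) + u x)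

theorem near_min (G : List Bool → ℝ)
    (hG : ∀ N, ∑ x ∈ FS N, G x ^ 2 ≤ 2 * 2 ^ N) (m T0 : ℕ) (hm : m ≤ T0) (v : List Bool → ℝ)
    (δ : ℝ) (hδ : 0 < δ) :
    ∃ (T : ℕ) (a : ℕ → ℕ) (u : List Bool → ℝ), Adm G m T0 v T a u ∧
      ∀ N, T ≤ N → ∑ x ∈ FS N, u (x.take T) * (v (x.take T0) + u (x.take T) - G x) ≤ δ * 2 ^ N := by
  classical
  -- the set of the squared norms
  let P : Set ℝ := {q : ℝ | ∃ (T : ℕ) (a : ℕ → ℕ) (u : List Bool → ℝ), Adm G m T0 v T a u ∧
    ∑ x ∈ FS T, u x ^ 2 = q * 2 ^ T}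
  have hne : P.Nonempty := by
    refine ⟨(∑ x ∈ FS T0, (max (G x - v (x.take T0)) 0) ^ 2) / 2 ^ T0, T0, fun n => if n = T0 then 1 else 0,
      fun x => max (G x - v (x.take T0)) 0, ⟨le_rfl, fun x => le_max_right _ _, ?_, ?_⟩, ?_⟩
    · rw [Finset.sum_ite_eq', if_pos (Finset.mem_Icc.2 ⟨hm, le_rfl⟩)]
      norm_num
    · intro x hx
      have h1 : ∑ n ∈ Finset.Icc m T0, ((if n = T0 then 1 else 0 : ℕ) : ℝ) * G (x.take n) = G x := by
        rw [Finset.sum_eq_single T0]
        · rw [if_pos rfl, List.take_of_length_le (by rw [mem_FS.1 hx])]; simp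
        · intro n _ hn; rw [if_neg hn]; simp
        · intro h; exact absurd (Finset.mem_Icc.2 ⟨hm, le_rfl⟩) h
      have h2 : ∑ n ∈ Finset.Icc m T0, ((if n = T0 then 1 else 0 : ℕ) : ℝ) = 1 := by
        rw [Finset.sum_eq_single T0]
        · rw [if_pos rfl]; simp
        · intro n _ hn; rw [if_neg hn]; simp
        · intro h; exact absurd (Finset.mem_Icc.2 ⟨hm, le_rfl⟩) h
      rw [h1, h2, one_mul]
      have := le_max_left (G x - v (x.take T0)) 0
      linarith
    · field_simp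
  have hbdd : BddBelow P := by
    refine ⟨0, ?_⟩
    rintro q ⟨T, a, u, _, hq⟩
    have h1 : (0 : ℝ) ≤ ∑ x ∈ FS T, u x ^ 2 := Finset.sum_nonneg fun x _ => sq_nonneg _
    rw [hq] at h1
    have h2 : (0 : ℝ) < 2 ^ T := by positivity
    by_contra hcon
    push Not at hcon
    nlinarith
  set q0 := sInf P with hq0
  have hq0n : 0 ≤ q0 := by
    refine le_csInf hne ?_
    rintro q ⟨T, a, u, _, hq⟩
    have h1 : (0 : ℝ) ≤ ∑ x ∈ FS T, u x ^ 2 := Finset.sum_nonneg fun x _ => sq_nonneg _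
    rw [hq] at h1
    have h2 : (0 : ℝ) < 2 ^ T := by positivity
    by_contra hcon
    push Not at hcon
    nlinarith
  -- constants
  set v2 : ℝ := (∑ x ∈ FS T0, v x ^ 2) / 2 ^ T0 with hv2
  have hv2n : 0 ≤ v2 := div_nonneg (Finset.sum_nonneg fun x _ => sq_nonneg _) (by positivity)
  set K : ℝ := 3 * (2 + v2 + (q0 + 1)) with hK
  have hKpos : 0 < K := by rw [hK]; linarith
  obtain ⟨k, hk⟩ := exists_nat_gt (K / δ)
  have hk2 : (k : ℝ) < 2 ^ k := by exact_mod_cast Nat.lt_two_pow_self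
  set s : ℝ := 1 / 2 ^ k with hs
  have hpk : (0 : ℝ) < 2 ^ k := by positivity
  have hs0 : 0 < s := by rw [hs]; positivity
  have hs1 : s ≤ 1 := by
    rw [hs, div_le_one hpk]
    exact one_le_pow₀ (by norm_num)
  have hsK : s * K ≤ δ := by
    rw [hs, one_div, inv_mul_le_iff₀ hpk]
    rw [div_lt_iff₀ hδ] at hk
    nlinarith
  set η : ℝ := min 1 (s * δ) with hη
  have hη0 : 0 < η := by rw [hη]; exact lt_min one_pos (by positivity)
  obtain ⟨q, ⟨T, a, u, hadm, hq⟩, hqlt⟩ := exists_lt_of_csInf_lt hne (show sInf P < q0 + η by rw [← hq0]; linarith)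
  obtain ⟨hT, hu0, ha, hdom⟩ := hadm
  refine ⟨T, a, u, ⟨hT, hu0, ha, hdom⟩, ?_⟩
  intro N hN
  set A : ℕ := ∑ n ∈ Finset.Icc m T, a n with hA
  have hAr : (∑ n ∈ Finset.Icc m T, (a n : ℝ)) = (A : ℝ) := by rw [hA]; push_cast; rfl
  rw [hAr] at hdom
  have hA0 : (0 : ℝ) < A := by exact_mod_cast ha
  -- the competitor
  let a' : ℕ → ℕ := fun n => (2 ^ k - 1) * (if n ≤ T then a n else 0) + (if n = N then A else 0)
  let u' : List Bool → ℝ := fun x => max ((1 - s) * u (x.take T) + s * (G x - v (x.take T0))) 0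
  have hsub : Finset.Icc m T ⊆ Finset.Icc m N := Finset.Icc_subset_Icc le_rfl hN
  have hmN : m ≤ N := hm.trans (hT.trans hN)
  have h2k : ((2 ^ k - 1 : ℕ) : ℝ) = 2 ^ k - 1 := by
    rw [Nat.cast_sub Nat.one_le_two_pow]; push_cast; ring
  have hsumR : ∀ g : ℕ → ℝ, ∑ n ∈ Finset.Icc m N, (a' n : ℝ) * g n =
      (2 ^ k - 1) * ∑ n ∈ Finset.Icc m T, (a n : ℝ) * g n + A * g N := by
    intro g
    have e1 : ∀ n ∈ Finset.Icc m N, (a' n : ℝ) * g n =
        (2 ^ k - 1) * (if n ≤ T then (a n : ℝ) * g n else 0) + (if n = N then (A : ℝ) * g n else 0) := by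
      intro n _
      simp only [a']
      push_cast
      rw [h2k]
      split_ifs <;> ring
    rw [Finset.sum_congr rfl e1, Finset.sum_add_distrib, ← Finset.mul_sum, Finset.sum_ite_eq',
      if_pos (Finset.mem_Icc.2 ⟨hmN, le_rfl⟩)]
    congr 2
    rw [← Finset.sum_filter]
    refine Finset.sum_congr ?_ (fun _ _ => rfl)
    ext n
    simp only [Finset.mem_filter, Finset.mem_Icc]
    omega
  have hsum1 : (∑ n ∈ Finset.Icc m N, (a' n : ℝ)) = 2 ^ k * A := by
    have := hsumR (fun _ => 1)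
    simp only [mul_one] at this
    rw [this, hAr]
    ring
  have hadm' : Adm G m T0 v N a' u' := by
    refine ⟨hT.trans hN, fun x => le_max_right _ _, ?_, ?_⟩
    · have h1 : (0 : ℝ) < ∑ n ∈ Finset.Icc m N, (a' n : ℝ) := by rw [hsum1]; positivity
      exact_mod_cast h1
    · intro x hx
      have hxl := mem_FS.1 hx
      rw [hsum1]
      have h1 := hsumR (fun n => G (x.take n))
      rw [h1, List.take_of_length_le (by rw [hxl])]
      have h2 := hdom (x.take T) (by rw [mem_FS, List.length_take]; omega)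
      rw [List.take_take, min_eq_left hT] at h2
      have h3 : ∑ n ∈ Finset.Icc m T, (a n : ℝ) * G ((x.take T).take n) =
          ∑ n ∈ Finset.Icc m T, (a n : ℝ) * G (x.take n) := by
        refine Finset.sum_congr rfl fun n hn => ?_
        rw [List.take_take, min_eq_left (Finset.mem_Icc.1 hn).2]
      rw [h3] at h2
      have h4 : (1 - s) * u (x.take T) + s * (G x - v (x.take T0)) ≤ u' x := le_max_left _ _
      have h5 : (0 : ℝ) ≤ 2 ^ k - 1 := by
        have : (1 : ℝ) ≤ 2 ^ k := one_le_pow₀ (by norm_num)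
        linarith
      have h6 : 2 ^ k * s = 1 := by rw [hs]; field_simp
      calc (2 ^ k - 1) * ∑ n ∈ Finset.Icc m T, (a n : ℝ) * G (x.take n) + A * G x
          ≤ (2 ^ k - 1) * (A * (v (x.take T0) + u (x.take T))) + A * G x := by
            have := mul_le_mul_of_nonneg_left h2 h5
            linarith
        _ = 2 ^ k * A * (v (x.take T0) + ((1 - s) * u (x.take T) + s * (G x - v (x.take T0)))) := by
            have e1 : 2 ^ k * A * (v (x.take T0) + ((1 - s) * u (x.take T) + s * (G x - v (x.take T0)))) =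
                2 ^ k * A * (v (x.take T0) + u (x.take T)) +
                (2 ^ k * s) * A * (G x - v (x.take T0) - u (x.take T)) := by ring
            rw [e1, h6]
            ring
        _ ≤ 2 ^ k * A * (v (x.take T0) + u' x) := by
            apply mul_le_mul_of_nonneg_left _ (by positivity)
            linarith
  -- minimality
  have hpN : (0 : ℝ) < 2 ^ N := by positivity
  have hmin : q0 * 2 ^ N ≤ ∑ x ∈ FS N, u' x ^ 2 := by
    have : (∑ x ∈ FS N, u' x ^ 2) / 2 ^ N ∈ P := ⟨N, a', u', hadm', by field_simp⟩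
    have h1 := csInf_le hbdd this
    rw [le_div_iff₀ hpN] at h1
    exact h1
  -- pointwise bound
  have hpt : ∀ x ∈ FS N, u' x ^ 2 ≤ u (x.take T) ^ 2 -
      2 * s * (u (x.take T) * (v (x.take T0) + u (x.take T) - G x)) +
      s ^ 2 * (3 * (G x ^ 2 + v (x.take T0) ^ 2 + u (x.take T) ^ 2)) := by
    intro x _
    have h1 : u' x ^ 2 ≤ ((1 - s) * u (x.take T) + s * (G x - v (x.take T0))) ^ 2 := by
      simp only [u']
      rcases max_cases ((1 - s) * u (x.take T) + s * (G x - v (x.take T0))) 0 with h | h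
      · rw [h.1]
      · rw [h.1]
        have := sq_nonneg ((1 - s) * u (x.take T) + s * (G x - v (x.take T0)))
        simpa using this
    have h2 : (G x - v (x.take T0) - u (x.take T)) ^ 2 ≤
        3 * (G x ^ 2 + v (x.take T0) ^ 2 + u (x.take T) ^ 2) := by
      nlinarith [sq_nonneg (G x + v (x.take T0)), sq_nonneg (G x + u (x.take T)),
        sq_nonneg (v (x.take T0) - u (x.take T))]
    have h3 : s ^ 2 * (G x - v (x.take T0) - u (x.take T)) ^ 2 ≤
        s ^ 2 * (3 * (G x ^ 2 + v (x.take T0) ^ 2 + u (x.take T) ^ 2)) :=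
      mul_le_mul_of_nonneg_left h2 (by positivity)
    have h4 : ((1 - s) * u (x.take T) + s * (G x - v (x.take T0))) ^ 2 = u (x.take T) ^ 2 -
      2 * s * (u (x.take T) * (v (x.take T0) + u (x.take T) - G x)) +
      s ^ 2 * (G x - v (x.take T0) - u (x.take T)) ^ 2 := by ring
    linarith
  have hsum := Finset.sum_le_sum hpt
  rw [Finset.sum_add_distrib, Finset.sum_sub_distrib, ← Finset.mul_sum, ← Finset.mul_sum,
    ← Finset.mul_sum, Finset.sum_add_distrib, Finset.sum_add_distrib] at hsum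
  have hu2 : ∑ x ∈ FS N, u (x.take T) ^ 2 = q * 2 ^ N := by
    rw [sumR_take hN (fun x => u x ^ 2), hq]
    have : (2 : ℝ) ^ N = 2 ^ (N - T) * 2 ^ T := by rw [← pow_add]; congr 1; omega
    rw [this]; ring
  have hvv2 : ∑ x ∈ FS N, v (x.take T0) ^ 2 = v2 * 2 ^ N := by
    rw [sumR_take (hT.trans hN) (fun x => v x ^ 2), hv2]
    have : (2 : ℝ) ^ N = 2 ^ (N - T0) * 2 ^ T0 := by rw [← pow_add]; congr 1; omega
    rw [this]
    field_simp
  rw [hu2, hvv2] at hsum
  have hGN := hG N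
  set I : ℝ := ∑ x ∈ FS N, u (x.take T) * (v (x.take T0) + u (x.take T) - G x) with hI
  have hη1 : η ≤ 1 := min_le_left _ _
  have hη2 : η ≤ s * δ := min_le_right _ _
  have hb : s ^ 2 * (3 * (∑ x ∈ FS N, G x ^ 2 + v2 * 2 ^ N + q * 2 ^ N)) ≤ s ^ 2 * (K * 2 ^ N) := by
    apply mul_le_mul_of_nonneg_left _ (by positivity)
    have h10 : q * 2 ^ N ≤ (q0 + 1) * 2 ^ N := mul_le_mul_of_nonneg_right (by linarith) hpN.le
    have h11 : K * 2 ^ N = 3 * (2 * 2 ^ N + v2 * 2 ^ N + (q0 + 1) * 2 ^ N) := by rw [hK]; ring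
    rw [h11]
    linarith
  -- conclusion
  have h12 : q * 2 ^ N ≤ (q0 + s * δ) * 2 ^ N := mul_le_mul_of_nonneg_right (by linarith) hpN.le
  have h13 : (q0 + s * δ) * 2 ^ N = q0 * 2 ^ N + s * δ * 2 ^ N := by ring
  have h7 : 2 * s * I ≤ s * δ * 2 ^ N + s ^ 2 * (K * 2 ^ N) := by linarith
  have h8 : s ^ 2 * (K * 2 ^ N) ≤ s * δ * 2 ^ N := by
    have : s ^ 2 * (K * 2 ^ N) = s * (s * K) * 2 ^ N := by ring
    rw [this]
    apply mul_le_mul_of_nonneg_right _ hpN.le
    exact mul_le_mul_of_nonneg_left hsK hs0.le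
  have h9 : 2 * s * I ≤ 2 * s * (δ * 2 ^ N) := by
    have : 2 * s * (δ * 2 ^ N) = s * δ * 2 ^ N + s * δ * 2 ^ N := by ring
    linarith
  exact le_of_mul_le_mul_left h9 (by positivity)

end Pool.Agent.Q36.KM
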