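import Pool.Agent.Q36.KM.NM

/-! # One step of the construction -/

set_option autoImplicit false

namespace Pool.Agent.Q36.KM

open Pool.Agent.H561R3 (strs mem_strs nodup_strs FS mem_FS card_FS)

/-- the summary inequality at stage `m` (the scale is `2 ^ m`) -/
def C4 (G : List Bool → ℕ) (m T : ℕ) (w : List Bool → ℕ) : Prop :=
  ∀ N, T ≤ N → ∑ x ∈ FS N, w (x.take T) ^ 2 ≤
    2 * 2 ^ m * ∑ x ∈ FS N, w (x.take T) * G x + 16 * (4 ^ m - 2 ^ m) * 2 ^ N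

/-- `w / 2 ^ (m + 1)` dominates a convex combination of the functions `G` at the levels `m, ..., T` -/
def Cov (G : List Bool → ℕ) (m T : ℕ) (w : List Bool → ℕ) (a : ℕ → ℕ) : Prop :=
  0 < ∑ n ∈ Finset.Icc m T, a n ∧ ∀ x ∈ FS T,
    2 ^ (m + 1) * ∑ n ∈ Finset.Icc m T, a n * G (x.take n) ≤ (∑ n ∈ Finset.Icc m T, a n) * w x

/-- the mean square of `w / 2 ^ m` is bounded -/
theorem sq_bound {G : List Bool → ℕ} {N : ℕ} (hG : ∑ x ∈ FS N, G x ^ 2 ≤ 2 * 2 ^ N) {m T : ℕ}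
    {w : List Bool → ℕ}
    (h : ∑ x ∈ FS N, w (x.take T) ^ 2 ≤
      2 * 2 ^ m * ∑ x ∈ FS N, w (x.take T) * G x + 16 * (4 ^ m - 2 ^ m) * 2 ^ N) :
    ∑ x ∈ FS N, w (x.take T) ^ 2 ≤ 40 * 4 ^ m * 2 ^ N := by
  have h1 : ∀ x ∈ FS N, 2 * (2 * 2 ^ m * (w (x.take T) * G x)) ≤ w (x.take T) ^ 2 + 4 * 4 ^ m * G x ^ 2 := by
    intro x _
    have h2 : (4 : ℕ) ^ m = 2 ^ m * 2 ^ m := by rw [← mul_pow]; norm_num
    rw [h2]
    have := two_mul_le_add_sq (w (x.take T)) (2 * 2 ^ m * G x)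
    nlinarith
  have h3 := Finset.sum_le_sum h1
  rw [Finset.sum_add_distrib, ← Finset.mul_sum, ← Finset.mul_sum, ← Finset.mul_sum] at h3
  have h4 : 4 * 4 ^ m * ∑ x ∈ FS N, G x ^ 2 ≤ 4 * 4 ^ m * (2 * 2 ^ N) := Nat.mul_le_mul_left _ hG
  have h5 : 16 * (4 ^ m - 2 ^ m) * 2 ^ N ≤ 16 * 4 ^ m * 2 ^ N :=
    Nat.mul_le_mul_right _ (Nat.mul_le_mul_left _ (Nat.sub_le _ _))
  nlinarith

theorem step_exists (G : List Bool → ℕ) (hG : ∀ N, ∑ x ∈ FS N, G x ^ 2 ≤ 2 * 2 ^ N) (m T' : ℕ)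
    (w' : List Bool → ℕ) (h4 : C4 G m T' w') :
    ∃ (T : ℕ) (a : ℕ → ℕ) (w : List Bool → ℕ), T' ≤ T ∧ m ≤ T ∧
      (∀ x ∈ FS T, 2 * w' (x.take T') ≤ w x) ∧ Cov G m T w a ∧ C4 G (m + 1) T w := by
  set ρ : ℝ := 1 / 2 ^ (m + 1) with hρ
  have hp1 : (0 : ℝ) < 2 ^ (m + 1) := by positivity
  have hρ0 : 0 < ρ := by rw [hρ]; positivity
  have hρ1 : ρ ≤ 1 / 2 := by
    rw [hρ, pow_succ]
    have : (1 : ℝ) ≤ 2 ^ m := one_le_pow₀ (by norm_num)
    rw [div_le_div_iff₀ (by positivity) (by norm_num)]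
    linarith
  have hρm : ρ * 2 ^ (m + 1) = 1 := by rw [hρ]; field_simp
  have hGr : ∀ N, ∑ x ∈ FS N, (G x : ℝ) ^ 2 ≤ 2 * 2 ^ N := by
    intro N; exact_mod_cast hG N
  obtain ⟨T, a, u, ⟨hT, hu0, ha, hdom⟩, hnm⟩ := near_min (fun x => (G x : ℝ)) hGr m (max T' m)
    (le_max_right _ _) (fun x => (w' (x.take T') : ℝ) / 2 ^ m) ρ hρ0
  have hT' : T' ≤ T := (le_max_left _ _).trans hT
  have hmT : m ≤ T := (le_max_right _ _).trans hT
  have hvt : ∀ x : List Bool, ((x.take (max T' m)).take T') = x.take T' := by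
    intro x; rw [List.take_take, min_eq_left (le_max_left _ _)]
  simp only [hvt] at hdom hnm
  -- the rounded function
  set z : List Bool → ℕ := fun x => ⌈2 ^ (m + 1) * u x⌉₊ with hz
  have hz1 : ∀ x, 2 ^ (m + 1) * u x ≤ z x := fun x => Nat.le_ceil _
  have hz2 : ∀ x, (z x : ℝ) ≤ 2 ^ (m + 1) * u x + 1 := fun x =>
    (Nat.ceil_lt_add_one (mul_nonneg hp1.le (hu0 x))).le
  refine ⟨T, a, fun x => 2 * w' (x.take T') + z x, hT', hmT, fun x _ => Nat.le_add_right _ _,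
    ⟨ha, ?_⟩, ?_⟩
  · intro x hx
    have h1 := hdom x hx
    have h2 : ((2 : ℝ) ^ (m + 1)) * ∑ n ∈ Finset.Icc m T, (a n : ℝ) * (G (x.take n) : ℝ) ≤
        (∑ n ∈ Finset.Icc m T, (a n : ℝ)) * (2 * (w' (x.take T') : ℝ) + z x) := by
      have h3 : (2 : ℝ) ^ (m + 1) * ((w' (x.take T') : ℝ) / 2 ^ m + u x) ≤
          2 * (w' (x.take T') : ℝ) + z x := by
        have h4 : (2 : ℝ) ^ (m + 1) * ((w' (x.take T') : ℝ) / 2 ^ m + u x) =
            2 * (w' (x.take T') : ℝ) + 2 ^ (m + 1) * u x := by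
          rw [pow_succ]; field_simp
        rw [h4]
        linarith [hz1 x]
      calc (2 : ℝ) ^ (m + 1) * ∑ n ∈ Finset.Icc m T, (a n : ℝ) * (G (x.take n) : ℝ)
          ≤ 2 ^ (m + 1) * ((∑ n ∈ Finset.Icc m T, (a n : ℝ)) * ((w' (x.take T') : ℝ) / 2 ^ m + u x)) :=
            mul_le_mul_of_nonneg_left h1 hp1.le
        _ = (∑ n ∈ Finset.Icc m T, (a n : ℝ)) * (2 ^ (m + 1) * ((w' (x.take T') : ℝ) / 2 ^ m + u x)) := by
            ring
        _ ≤ _ := mul_le_mul_of_nonneg_left h3 (Finset.sum_nonneg fun _ _ => Nat.cast_nonneg _)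
    exact_mod_cast h2
  · intro N hN
    have htt : ∀ x : List Bool, (x.take T).take T' = x.take T' := by
      intro x; rw [List.take_take, min_eq_left hT']
    simp only [htt]
    have hpN : (0 : ℝ) < 2 ^ N := by positivity
    have hpm : (0 : ℝ) < 2 ^ m := by positivity
    -- the old inequality, divided by `4 ^ m`
    have h5 := h4 N (hT'.trans hN)
    set V : List Bool → ℝ := fun x => (w' (x.take T') : ℝ) / 2 ^ m with hV
    have hV0 : ∀ x, 0 ≤ V x := fun x => by rw [hV]; positivity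
    have h4m : (4 : ℝ) ^ m = 2 ^ m * 2 ^ m := by rw [← mul_pow]; norm_num
    have hwV : ∀ x, (w' (x.take T') : ℝ) = 2 ^ m * V x := fun x => by rw [hV]; field_simp
    have hle4 : 2 ^ m ≤ 4 ^ m := Nat.pow_le_pow_left (by norm_num) m
    have hold : ∑ x ∈ FS N, V x ^ 2 ≤ 2 * ∑ x ∈ FS N, V x * G x + 16 * (1 - 2 * ρ) * 2 ^ N := by
      have h6 : ((∑ x ∈ FS N, w' (x.take T') ^ 2 : ℕ) : ℝ) ≤
          ((2 * 2 ^ m * ∑ x ∈ FS N, w' (x.take T') * G x + 16 * (4 ^ m - 2 ^ m) * 2 ^ N : ℕ) : ℝ) := by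
        exact_mod_cast h5
      push_cast [Nat.cast_sub hle4] at h6
      simp only [hwV] at h6
      have e1 : ∑ x ∈ FS N, (2 ^ m * V x) ^ 2 = (2 ^ m * 2 ^ m) * ∑ x ∈ FS N, V x ^ 2 := by
        rw [Finset.mul_sum]; exact Finset.sum_congr rfl fun x _ => by ring
      have e2 : ∑ x ∈ FS N, 2 ^ m * V x * (G x : ℝ) = 2 ^ m * ∑ x ∈ FS N, V x * G x := by
        rw [Finset.mul_sum]; exact Finset.sum_congr rfl fun x _ => by ring
      rw [e1, e2, h4m] at h6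
      have e3 : 2 ^ m * 2 ^ m * (2 * ∑ x ∈ FS N, V x * G x + 16 * (1 - 2 * ρ) * 2 ^ N) =
          2 * 2 ^ m * (2 ^ m * ∑ x ∈ FS N, V x * G x) + 16 * (2 ^ m * 2 ^ m - 2 ^ m) * 2 ^ N := by
        have e4 : ρ = 1 / (2 ^ m * 2) := by rw [hρ, pow_succ]
        rw [e4]
        field_simp
      rw [← e3] at h6
      exact le_of_mul_le_mul_left h6 (by positivity)
    -- a bound for the mean of `V`
    have hVG : 2 * ∑ x ∈ FS N, V x * G x ≤ 1 / 2 * ∑ x ∈ FS N, V x ^ 2 + 2 * ∑ x ∈ FS N, (G x : ℝ) ^ 2 := by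
      rw [Finset.mul_sum, Finset.mul_sum, Finset.mul_sum, ← Finset.sum_add_distrib]
      refine Finset.sum_le_sum fun x _ => ?_
      nlinarith [sq_nonneg (V x - 2 * G x)]
    have hV2 : ∑ x ∈ FS N, V x ^ 2 ≤ 40 * 2 ^ N := by
      have := hGr N
      nlinarith [mul_pos hρ0 hpN]
    have hV1 : 2 * ∑ x ∈ FS N, V x ≤ 13 * 2 ^ N := by
      have h6 : ∀ x ∈ FS N, 2 * V x ≤ 1 / 8 * V x ^ 2 + 8 := by
        intro x _
        nlinarith [sq_nonneg (V x - 8)]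
      have h7 := Finset.sum_le_sum h6
      rw [Finset.sum_add_distrib, ← Finset.mul_sum, ← Finset.mul_sum, Finset.sum_const, card_FS,
        nsmul_eq_mul] at h7
      push_cast at h7
      linarith
    -- the new part
    have hnew := hnm N hN
    have hZ : ∀ x ∈ FS N, 2 * V x * ((z (x.take T) : ℝ) * ρ) + ((z (x.take T) : ℝ) * ρ) ^ 2 ≤
        2 * (((z (x.take T) : ℝ) * ρ) * G x) + (2 * (u (x.take T) * (V x + u (x.take T) - G x)) +
          ρ * (2 * V x) + 2 * ρ ^ 2) := by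
      intro x _
      set U := u (x.take T) with hU
      set Z := (z (x.take T) : ℝ) * ρ with hZd
      have hZ1 : U ≤ Z := by
        have := mul_le_mul_of_nonneg_right (hz1 (x.take T)) hρ0.le
        have e1 : 2 ^ (m + 1) * u (x.take T) * ρ = (ρ * 2 ^ (m + 1)) * U := by rw [hU]; ring
        rw [e1, hρm, one_mul] at this
        exact this
      have hZ2 : Z ≤ U + ρ := by
        have := mul_le_mul_of_nonneg_right (hz2 (x.take T)) hρ0.le
        have e1 : (2 ^ (m + 1) * u (x.take T) + 1) * ρ = (ρ * 2 ^ (m + 1)) * U + ρ := by rw [hU]; ring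
        rw [e1, hρm, one_mul] at this
        exact this
      obtain ⟨r, hr⟩ : ∃ r, Z = U + r := ⟨Z - U, by ring⟩
      have hr0 : 0 ≤ r := by linarith
      have hr1 : r ≤ ρ := by linarith
      have hU0 : 0 ≤ U := hu0 _
      have hVx := hV0 x
      have hGx : (0 : ℝ) ≤ G x := Nat.cast_nonneg _
      rw [hr]
      have p1 : r * V x ≤ ρ * V x := mul_le_mul_of_nonneg_right hr1 hVx
      have p2 : 0 ≤ r * G x := mul_nonneg hr0 hGx
      have p3 : U * r ≤ U * ρ := mul_le_mul_of_nonneg_left hr1 hU0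
      have p4 : r ^ 2 ≤ ρ ^ 2 := pow_le_pow_left₀ hr0 hr1 2
      nlinarith [sq_nonneg (U - ρ)]
    have hsum := Finset.sum_le_sum hZ
    rw [Finset.sum_add_distrib, Finset.sum_add_distrib, Finset.sum_add_distrib, Finset.sum_add_distrib,
      ← Finset.mul_sum, ← Finset.mul_sum, ← Finset.mul_sum, ← Finset.mul_sum, Finset.sum_const, card_FS,
      nsmul_eq_mul] at hsum
    push_cast at hsum
    -- combine
    have hfinal : ∑ x ∈ FS N, (V x + (z (x.take T) : ℝ) * ρ) ^ 2 ≤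
        2 * ∑ x ∈ FS N, (V x + (z (x.take T) : ℝ) * ρ) * G x + 16 * (1 - ρ) * 2 ^ N := by
      have e1 : ∑ x ∈ FS N, (V x + (z (x.take T) : ℝ) * ρ) ^ 2 = ∑ x ∈ FS N, V x ^ 2 +
          (∑ x ∈ FS N, 2 * V x * ((z (x.take T) : ℝ) * ρ) + ∑ x ∈ FS N, ((z (x.take T) : ℝ) * ρ) ^ 2) := by
        rw [← Finset.sum_add_distrib, ← Finset.sum_add_distrib]
        exact Finset.sum_congr rfl fun x _ => by ring
      have e2 : ∑ x ∈ FS N, (V x + (z (x.take T) : ℝ) * ρ) * (G x : ℝ) = ∑ x ∈ FS N, V x * G x +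
          ∑ x ∈ FS N, ((z (x.take T) : ℝ) * ρ) * G x := by
        rw [← Finset.sum_add_distrib]
        exact Finset.sum_congr rfl fun x _ => by ring
      rw [e1, e2]
      have hb1 : ρ * (2 * ∑ x ∈ FS N, V x) ≤ ρ * (13 * 2 ^ N) := mul_le_mul_of_nonneg_left hV1 hρ0.le
      have hb2 : 2 ^ N * (2 * ρ ^ 2) ≤ ρ * 2 ^ N := by
        have : 2 * ρ ^ 2 ≤ ρ := by nlinarith
        nlinarith
      nlinarith
    -- back to the integers
    have hgoal : ((∑ x ∈ FS N, (2 * w' (x.take T') + z (x.take T)) ^ 2 : ℕ) : ℝ) ≤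
        ((2 * 2 ^ (m + 1) * ∑ x ∈ FS N, (2 * w' (x.take T') + z (x.take T)) * G x +
          16 * (4 ^ (m + 1) - 2 ^ (m + 1)) * 2 ^ N : ℕ) : ℝ) := by
      have hle5 : 2 ^ (m + 1) ≤ 4 ^ (m + 1) := Nat.pow_le_pow_left (by norm_num) (m + 1)
      push_cast [Nat.cast_sub hle5]
      have hw : ∀ x : List Bool, 2 * (w' (x.take T') : ℝ) + (z (x.take T) : ℝ) =
          2 ^ (m + 1) * (V x + (z (x.take T) : ℝ) * ρ) := by
        intro x
        have : 2 ^ (m + 1) * (V x + (z (x.take T) : ℝ) * ρ) = 2 * (2 ^ m * V x) +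
            (ρ * 2 ^ (m + 1)) * (z (x.take T) : ℝ) := by rw [pow_succ]; ring
        rw [this, hρm, one_mul, ← hwV]
      simp only [hw]
      have e1 : ∑ x ∈ FS N, (2 ^ (m + 1) * (V x + (z (x.take T) : ℝ) * ρ)) ^ 2 =
          (2 ^ (m + 1) * 2 ^ (m + 1)) * ∑ x ∈ FS N, (V x + (z (x.take T) : ℝ) * ρ) ^ 2 := by
        rw [Finset.mul_sum]; exact Finset.sum_congr rfl fun x _ => by ring
      have e2 : ∑ x ∈ FS N, 2 ^ (m + 1) * (V x + (z (x.take T) : ℝ) * ρ) * (G x : ℝ) =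
          2 ^ (m + 1) * ∑ x ∈ FS N, (V x + (z (x.take T) : ℝ) * ρ) * G x := by
        rw [Finset.mul_sum]; exact Finset.sum_congr rfl fun x _ => by ring
      rw [e1, e2]
      have h4m1 : (4 : ℝ) ^ (m + 1) = 2 ^ (m + 1) * 2 ^ (m + 1) := by rw [← mul_pow]; norm_num
      rw [h4m1]
      have h8 := mul_le_mul_of_nonneg_left hfinal (show (0 : ℝ) ≤ 2 ^ (m + 1) * 2 ^ (m + 1) by positivity)
      refine h8.trans (le_of_eq ?_)
      have e5 : (2 : ℝ) ^ (m + 1) * 2 ^ (m + 1) * (16 * (1 - ρ) * 2 ^ N) =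
          16 * (2 ^ (m + 1) * 2 ^ (m + 1) - (ρ * 2 ^ (m + 1)) * 2 ^ (m + 1)) * 2 ^ N := by ring
      rw [mul_add, e5, hρm]
      ring
    exact_mod_cast hgoal

end Pool.Agent.Q36.KM
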